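import Mathlib

/-!
# Torsion in first order form and the lifting lemma
-/

open scoped ContDiff Topology

noncomputable section

namespace Nij

variable {E F : Type*} [NormedAddCommGroup E] [NormedSpace ℝ E]
  [NormedAddCommGroup F] [NormedSpace ℝ F]

/-- The Nijenhuis torsion of a field of endomorphisms, written with the first
derivative only (torsion on the constant fields `v`, `w`). -/
def tors (L : E → E →L[ℝ] E) (p v w : E) : E :=
  fderiv ℝ L p (L p v) w - fderiv ℝ L p (L p w) v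
    - L p (fderiv ℝ L p v w - fderiv ℝ L p w v)

/-- The Lie derivative of `K` along `Y` (up to sign), with the first derivatives only. -/
def lie (K : E → E →L[ℝ] E) (Y : E → E) (p v : E) : E :=
  fderiv ℝ Y p (K p v) - fderiv ℝ K p (Y p) v - K p (fderiv ℝ Y p v)

theorem tors_congr {L L' : E → E →L[ℝ] E} {p : E} (h : L =ᶠ[𝓝 p] L') (v w : E) :
    tors L p v w = tors L' p v w := by
  unfold tors
  rw [h.fderiv_eq, h.eq_of_nhds]

theorem lie_congr {K K' : E → E →L[ℝ] E} {Y Y' : E → E} {p : E} (h : K =ᶠ[𝓝 p] K')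
    (hY : Y =ᶠ[𝓝 p] Y') (v : E) :
    lie K Y p v = lie K' Y' p v := by
  unfold lie
  rw [h.fderiv_eq, h.eq_of_nhds, hY.fderiv_eq, hY.eq_of_nhds]

theorem tors_zero (p v w : E) : tors (fun _ : E => (0 : E →L[ℝ] E)) p v w = 0 := by
  simp [tors]

theorem lie_zero_left (Y : E → E) (p v : E) : lie (fun _ : E => (0 : E →L[ℝ] E)) Y p v = 0 := by
  simp [lie]

theorem lie_zero_right (K : E → E →L[ℝ] E) (p v : E) : lie K (fun _ => 0) p v = 0 := by
  simp [lie]

section lift

variable {κ : E → F →L[ℝ] F} {φ : E → E →L[ℝ] F} {ι : E → F →L[ℝ] E} {z : E}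

theorem fderiv_comp3 (hκ : DifferentiableAt ℝ κ z) (hp : DifferentiableAt ℝ φ z)
    (hι : DifferentiableAt ℝ ι z) (u w : E) :
    fderiv ℝ (fun z' => (ι z').comp ((κ z').comp (φ z'))) z u w
      = fderiv ℝ ι z u (κ z (φ z w)) + ι z (fderiv ℝ κ z u (φ z w))
        + ι z (κ z (fderiv ℝ φ z u w)) := by
  have h1 : HasFDerivAt (fun z' => (κ z').comp (φ z')) _ z :=
    hκ.hasFDerivAt.clm_comp hp.hasFDerivAt
  have h2 := hι.hasFDerivAt.clm_comp h1
  rw [h2.fderiv]
  simp
  abel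

theorem deriv_id (hp : DifferentiableAt ℝ φ z)
    (hι : DifferentiableAt ℝ ι z)
    (hpι : ∀ᶠ z' in 𝓝 z, (φ z').comp (ι z') = ContinuousLinearMap.id ℝ F) (u : E) (a : F) :
    fderiv ℝ φ z u (ι z a) + φ z (fderiv ℝ ι z u a) = 0 := by
  have h1 := hp.hasFDerivAt.clm_comp hι.hasFDerivAt
  have h2 : (fun z' => (φ z').comp (ι z')) =ᶠ[𝓝 z] fun _ => ContinuousLinearMap.id ℝ F := hpι
  have h3 := h2.fderiv_eq (𝕜 := ℝ)
  rw [h1.fderiv] at h3
  have h4 := congrArg (fun T => T u a) h3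
  simp at h4
  rw [← h4]
  abel

/-- General lifting lemma. -/
theorem tors_lift (hκ : DifferentiableAt ℝ κ z) (hp : DifferentiableAt ℝ φ z)
    (hι : DifferentiableAt ℝ ι z)
    (hpι : ∀ᶠ z' in 𝓝 z, (φ z').comp (ι z') = ContinuousLinearMap.id ℝ F)
    (hflat : ∀ a b, fderiv ℝ ι z (ι z a) b = fderiv ℝ ι z (ι z b) a)
    (hclosed : ∀ u w, fderiv ℝ φ z u w = fderiv ℝ φ z w u)
    (D : F → F →L[ℝ] F)
    (hD : ∀ u, fderiv ℝ κ z u = D (φ z u))
    (hN : ∀ a b, D (κ z a) b - D (κ z b) a - κ z (D a b - D b a) = 0) (v w : E) :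
    tors (fun z' => (ι z').comp ((κ z').comp (φ z'))) z v w = 0 := by
  have hid : ∀ a, φ z (ι z a) = a := fun a => by
    have := hpι.self_of_nhds
    exact congrArg (fun T => T a) this
  have key := deriv_id hp hι hpι
  have hM := fderiv_comp3 hκ hp hι
  unfold tors
  simp only [hM, hD, hid, ContinuousLinearMap.comp_apply, map_sub, map_add]
  have e1 : fderiv ℝ φ z (ι z (κ z (φ z v))) w
      = - φ z (fderiv ℝ ι z w (κ z (φ z v))) := by
    rw [hclosed]
    exact eq_neg_of_add_eq_zero_left (key _ _)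
  have e2 : fderiv ℝ φ z (ι z (κ z (φ z w))) v
      = - φ z (fderiv ℝ ι z v (κ z (φ z w))) := by
    rw [hclosed]
    exact eq_neg_of_add_eq_zero_left (key _ _)
  rw [e1, e2, hflat (κ z (φ z w)), hclosed w v]
  have h0 := congrArg (ι z) (hN (φ z v) (φ z w))
  simp only [map_sub, map_zero] at h0
  simp only [map_neg]
  rw [← h0]
  abel

theorem lie_lift (hκ : DifferentiableAt ℝ κ z) (hp : DifferentiableAt ℝ φ z)
    (hι : DifferentiableAt ℝ ι z)
    (hpι : ∀ᶠ z' in 𝓝 z, (φ z').comp (ι z') = ContinuousLinearMap.id ℝ F)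
    (hflat : ∀ a b, fderiv ℝ ι z (ι z a) b = fderiv ℝ ι z (ι z b) a)
    (hclosed : ∀ u w, fderiv ℝ φ z u w = fderiv ℝ φ z w u)
    (D : F → F →L[ℝ] F)
    (hD : ∀ u, fderiv ℝ κ z u = D (φ z u)) (e : F) (he : D e = 0) (v : E) :
    lie (fun z' => (ι z').comp ((κ z').comp (φ z'))) (fun z' => ι z' e) z v = 0 := by
  have hid : ∀ a, φ z (ι z a) = a := fun a => by
    have := hpι.self_of_nhds
    exact congrArg (fun T => T a) this
  have key := deriv_id hp hι hpι
  have hM := fderiv_comp3 hκ hp hι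
  have hY : ∀ u, fderiv ℝ (fun z' => ι z' e) z u = fderiv ℝ ι z u e := fun u => by
    have := (hι.hasFDerivAt.clm_apply (hasFDerivAt_const e z)).fderiv
    rw [this]; simp
  unfold lie
  simp only [hM, hD, hid, hY, ContinuousLinearMap.comp_apply, he, zero_apply,
    map_zero]
  have e1 : fderiv ℝ φ z (ι z e) v = - φ z (fderiv ℝ ι z v e) := by
    rw [hclosed]
    exact eq_neg_of_add_eq_zero_left (key _ _)
  rw [e1, hflat e]
  simp only [map_neg]
  abel

end lift

end Nij
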