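import Pool.Agent.Nij.Basic

/-!
# The characteristic polynomial of a field of operators without torsion
-/

open scoped ContDiff Topology Polynomial
open Polynomial

noncomputable section

namespace Nij

variable {E : Type*} [NormedAddCommGroup E] [NormedSpace ℝ E] [FiniteDimensional ℝ E]

/-- underlying linear map, as a linear map -/
def toEndL : (E →L[ℝ] E) →ₗ[ℝ] Module.End ℝ E := ContinuousLinearMap.coeLM ℝ

omit [FiniteDimensional ℝ E] in
theorem toEndL_apply (A : E →L[ℝ] E) : toEndL A = (A : E →ₗ[ℝ] E) := rfl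

theorem contDiff_mvPoly {ι : Type*} [Fintype ι] {G : Type*} [NormedAddCommGroup G]
    [NormedSpace ℝ G] (l : ι → G →L[ℝ] ℝ) (p : MvPolynomial ι ℝ) :
    ContDiff ℝ ∞ fun A : G => MvPolynomial.eval (fun i => l i A) p := by
  induction p using MvPolynomial.induction_on with
  | C a => simpa using contDiff_const
  | add p q hp hq => simpa using hp.add hq
  | mul_X p i hp => simpa using hp.mul (l i).contDiff

/-- characteristic polynomial of a continuous linear map -/
def chp (A : E →L[ℝ] E) : ℝ[X] := (A : E →ₗ[ℝ] E).charpoly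

theorem contDiff_chp_coeff (i : ℕ) : ContDiff ℝ ∞ fun A : E →L[ℝ] E => (chp A).coeff i := by
  classical
  let b := Module.finBasis ℝ (E →L[ℝ] E)
  let l : Fin (Module.finrank ℝ (E →L[ℝ] E)) → (E →L[ℝ] E) →L[ℝ] ℝ := fun j =>
    LinearMap.toContinuousLinearMap (b.coord j)
  have h := contDiff_mvPoly l ((LinearMap.polyCharpoly (toEndL (E := E)) b).coeff i)
  have h2 : (fun A : E →L[ℝ] E => (chp A).coeff i) = fun A =>
      MvPolynomial.eval (fun i => l i A) ((LinearMap.polyCharpoly (toEndL (E := E)) b).coeff i) := by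
    funext A
    unfold chp
    rw [← toEndL_apply, ← LinearMap.polyCharpoly_coeff_eval toEndL b A i]
    rfl
  rw [h2]
  exact h

/-- determinant -/
def dt (A : E →L[ℝ] E) : ℝ := LinearMap.det (A : E →ₗ[ℝ] E)

/-- trace -/
def tr (A : E →L[ℝ] E) : ℝ := LinearMap.trace ℝ E (A : E →ₗ[ℝ] E)

theorem eval_chp (A : E →L[ℝ] E) (z : ℝ) :
    (chp A).eval z = dt (z • ContinuousLinearMap.id ℝ E - A) := by
  unfold chp dt
  rw [LinearMap.eval_charpoly]
  rfl

theorem contDiff_dt : ContDiff ℝ ∞ (dt : (E →L[ℝ] E) → ℝ) := by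
  have h : (dt : (E →L[ℝ] E) → ℝ) = fun A => (chp (-A)).coeff 0 := by
    funext A
    rw [coeff_zero_eq_eval_zero, eval_chp]
    simp
  rw [h]
  exact (contDiff_chp_coeff 0).comp contDiff_neg

omit [FiniteDimensional ℝ E] in
theorem tr_add (A B : E →L[ℝ] E) : tr (A + B) = tr A + tr B := by
  unfold tr
  rw [← map_add]; rfl

omit [FiniteDimensional ℝ E] in
theorem tr_sub (A B : E →L[ℝ] E) : tr (A - B) = tr A - tr B := by
  unfold tr
  rw [← map_sub]; rfl

omit [FiniteDimensional ℝ E] in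
theorem tr_smul (c : ℝ) (A : E →L[ℝ] E) : tr (c • A) = c * tr A := by
  unfold tr
  rw [← smul_eq_mul, ← map_smul]; rfl

omit [FiniteDimensional ℝ E] in
theorem tr_comm (A B : E →L[ℝ] E) : tr (A.comp B) = tr (B.comp A) :=
  LinearMap.trace_mul_comm ℝ (A : E →ₗ[ℝ] E) (B : E →ₗ[ℝ] E)

omit [FiniteDimensional ℝ E] in
theorem dt_mul (A B : E →L[ℝ] E) : dt (A.comp B) = dt A * dt B :=
  LinearMap.det_comp (A : E →ₗ[ℝ] E) (B : E →ₗ[ℝ] E)

theorem hasDerivAt_dt_one (C : E →L[ℝ] E) :
    HasDerivAt (fun t : ℝ => dt (ContinuousLinearMap.id ℝ E + t • C)) (tr C) 0 := by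
  classical
  let b := Module.finBasis ℝ E
  let M := LinearMap.toMatrix b b (C : E →ₗ[ℝ] E)
  let Q : ℝ[X] := (1 + (X : ℝ[X]) • M.map Polynomial.C).det.divX.divX
  have h1 : ∀ t : ℝ, dt (ContinuousLinearMap.id ℝ E + t • C)
      = 1 + M.trace * t + Q.eval t * t ^ 2 := by
    intro t
    unfold dt
    rw [← LinearMap.det_toMatrix b, ← Matrix.det_one_add_smul t M]
    congr 1
    have : ((ContinuousLinearMap.id ℝ E + t • C : E →L[ℝ] E) : E →ₗ[ℝ] E) =
        LinearMap.id + t • (C : E →ₗ[ℝ] E) := rfl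
    rw [this, map_add, map_smul, LinearMap.toMatrix_id]
  have h3 : (fun t : ℝ => dt (ContinuousLinearMap.id ℝ E + t • C)) =
      fun t => 1 + M.trace * t + Q.eval t * t ^ 2 := funext h1
  rw [h3]
  have h4 : HasDerivAt (fun t : ℝ => 1 + M.trace * t + Q.eval t * t ^ 2)
      (0 + M.trace * 1 + (Q.derivative.eval 0 * (0 : ℝ) ^ 2 + Q.eval 0 * (2 * (0 : ℝ)))) 0 := by
    refine HasDerivAt.add ?_ ?_
    · exact (hasDerivAt_const (0 : ℝ) (1 : ℝ)).add ((hasDerivAt_id (0 : ℝ)).const_mul _)
    · refine (Q.hasDerivAt (0 : ℝ)).mul ?_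
      simpa using hasDerivAt_pow 2 (0 : ℝ)
  have h5 : M.trace = tr C := (LinearMap.trace_eq_matrix_trace ℝ b (C : E →ₗ[ℝ] E)).symm
  simpa [h5] using h4

/-- Jacobi's formula at an invertible operator. -/
theorem fderiv_dt {R S : E →L[ℝ] E} (h : R.comp S = ContinuousLinearMap.id ℝ E)
    (B : E →L[ℝ] E) : fderiv ℝ dt R B = dt R * tr (S.comp B) := by
  have h1 : HasFDerivAt (dt : (E →L[ℝ] E) → ℝ) (fderiv ℝ dt R) (R + (0 : ℝ) • B) := by
    simpa using (contDiff_dt.differentiable (by simp) R).hasFDerivAt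
  have h2 : HasDerivAt (fun t : ℝ => R + t • B) B 0 := by
    simpa using ((hasDerivAt_id (0 : ℝ)).smul_const B).const_add R
  have h3 : HasDerivAt (dt ∘ fun t : ℝ => R + t • B) (fderiv ℝ dt R B) 0 :=
    h1.comp_hasDerivAt (0 : ℝ) h2
  change HasDerivAt (fun t : ℝ => dt (R + t • B)) (fderiv ℝ dt R B) 0 at h3
  have h4 : (fun t : ℝ => dt (R + t • B)) =
      fun t => dt R * dt (ContinuousLinearMap.id ℝ E + t • S.comp B) := by
    funext t
    rw [← dt_mul]
    congr 1
    ext x
    have hx := congrArg (fun T => T (B x)) h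
    simp only [ContinuousLinearMap.comp_apply, ContinuousLinearMap.id_apply] at hx
    simp [hx]
  rw [h4] at h3
  exact h3.unique ((hasDerivAt_dt_one _).const_mul _)

variable {L : E → E →L[ℝ] E} {x : E}

/-- The trace identity of a torsion free operator field. -/
theorem trace_identity (hN : ∀ v w, tors L x v w = 0) {S : E →L[ℝ] E}
    (hS : S.comp (L x) = (L x).comp S) (v : E) :
    tr (S.comp (fderiv ℝ L x (L x v))) = tr (S.comp ((L x).comp (fderiv ℝ L x v))) := by
  let Cv : E →L[ℝ] E := (fderiv ℝ L x).flip v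
  have h1 : fderiv ℝ L x (L x v) - (L x).comp (fderiv ℝ L x v) =
      Cv.comp (L x) - (L x).comp Cv := by
    ext w
    have := hN v w
    unfold tors at this
    simp only [sub_apply, ContinuousLinearMap.comp_apply, Cv, ContinuousLinearMap.flip_apply]
    rw [map_sub] at this
    rw [← sub_eq_zero, ← this]
    abel
  have h2 : tr (S.comp (fderiv ℝ L x (L x v) - (L x).comp (fderiv ℝ L x v))) = 0 := by
    rw [h1, ContinuousLinearMap.comp_sub, tr_sub, sub_eq_zero, ← ContinuousLinearMap.comp_assoc,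
      tr_comm, ← ContinuousLinearMap.comp_assoc, ← ContinuousLinearMap.comp_assoc, hS]
  rw [ContinuousLinearMap.comp_sub, tr_sub, sub_eq_zero] at h2
  exact h2

/-- For `z` not an eigenvalue: `d χ(z) ∘ L = z d χ(z) + χ(z) d (tr L)`. -/
theorem fderiv_eval_chp (hL : DifferentiableAt ℝ L x) (hN : ∀ v w, tors L x v w = 0) {z : ℝ}
    (hz : (chp (L x)).eval z ≠ 0) (v : E) :
    fderiv ℝ (fun y => (chp (L y)).eval z) x (L x v) =
      z * fderiv ℝ (fun y => (chp (L y)).eval z) x v
        + (chp (L x)).eval z * tr (fderiv ℝ L x v) := by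
  set R : E →L[ℝ] E := z • ContinuousLinearMap.id ℝ E - L x with hR
  have hdR : dt R ≠ 0 := by rw [hR, ← eval_chp]; exact hz
  let e : E ≃ₗ[ℝ] E := LinearEquiv.ofIsUnitDet (f := (R : E →ₗ[ℝ] E))
    (v := Module.finBasis ℝ E) (v' := Module.finBasis ℝ E) (by
      rw [LinearMap.det_toMatrix]
      exact isUnit_iff_ne_zero.mpr hdR)
  have he : ∀ y, e y = R y := fun y => rfl
  let S : E →L[ℝ] E := LinearMap.toContinuousLinearMap (e.symm : E →ₗ[ℝ] E)
  have hRS : R.comp S = ContinuousLinearMap.id ℝ E := by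
    ext y
    change R (e.symm y) = y
    rw [← he, LinearEquiv.apply_symm_apply]
  have hSR : S.comp R = ContinuousLinearMap.id ℝ E := by
    ext y
    change e.symm (R y) = y
    rw [← he, LinearEquiv.symm_apply_apply]
  have hSL : S.comp (L x) = z • S - ContinuousLinearMap.id ℝ E := by
    have h1 : L x = z • ContinuousLinearMap.id ℝ E - R := by rw [hR]; abel
    rw [h1, ContinuousLinearMap.comp_sub, hSR, ContinuousLinearMap.comp_smul,
      ContinuousLinearMap.comp_id]
  have hLS : (L x).comp S = z • S - ContinuousLinearMap.id ℝ E := by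
    have h1 : L x = z • ContinuousLinearMap.id ℝ E - R := by rw [hR]; abel
    rw [h1, ContinuousLinearMap.sub_comp, hRS, ContinuousLinearMap.smul_comp,
      ContinuousLinearMap.id_comp]
  have hfd : ∀ u, fderiv ℝ (fun y => (chp (L y)).eval z) x u =
      - (dt R * tr (S.comp (fderiv ℝ L x u))) := by
    intro u
    have h1 : HasFDerivAt (fun y => z • ContinuousLinearMap.id ℝ E - L y) (-fderiv ℝ L x) x := by
      simpa using hL.hasFDerivAt.const_sub (z • ContinuousLinearMap.id ℝ E)
    have h2 : HasFDerivAt (dt ∘ fun y => z • ContinuousLinearMap.id ℝ E - L y)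
        ((fderiv ℝ dt R).comp (-fderiv ℝ L x)) x :=
      ((contDiff_dt.differentiable (by simp) R).hasFDerivAt).comp x h1
    change HasFDerivAt (fun y => dt (z • ContinuousLinearMap.id ℝ E - L y))
        ((fderiv ℝ dt R).comp (-fderiv ℝ L x)) x at h2
    have h3 : (fun y => (chp (L y)).eval z) =
        fun y => dt (z • ContinuousLinearMap.id ℝ E - L y) := by
      funext y; exact eval_chp _ _
    rw [h3, h2.fderiv]
    rw [ContinuousLinearMap.comp_apply, neg_apply, map_neg, fderiv_dt hRS]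
  rw [hfd, hfd, trace_identity hN (by rw [hSL, hLS]), ← ContinuousLinearMap.comp_assoc, hSL,
    ContinuousLinearMap.sub_comp, tr_sub, ContinuousLinearMap.smul_comp, tr_smul,
    ContinuousLinearMap.id_comp, eval_chp]
  ring

end Nij
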