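import Pool.Agent.Nij.Split
import Pool.Agent.Nij.Charp

/-!
# Smooth Bezout relations and the derivative of a factor
-/

open scoped ContDiff Topology Polynomial
open Polynomial

noncomputable section

namespace Nij

section bezout

variable {G : Type*} [NormedAddCommGroup G] [NormedSpace ℝ G]

theorem mulm_fderiv (k m : ℕ) (p : (Fin k → ℂ) × (Fin m → ℂ)) :
    fderiv ℂ (mulm k m) p = LinearMap.toContinuousLinearMap (syl k m (mp p.1) (mp p.2)) :=
  (mulm_hasStrictFDerivAt p).hasFDerivAt.fderiv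

theorem bezout_smooth {k m : ℕ} (hkm : 0 < k + m) {a : G → Fin k → ℂ} {b : G → Fin m → ℂ} {x : G}
    {r : ℕ} (ha : ContDiffAt ℝ r a x) (hb : ContDiffAt ℝ r b x)
    (hcop : IsCoprime (mp (a x)) (mp (b x))) :
    ∃ (p : G → Fin k → ℂ) (q : G → Fin m → ℂ), ContDiffAt ℝ r p x ∧ ContDiffAt ℝ r q x ∧
      ∀ᶠ y in 𝓝 x, vp (p y) * mp (b y) + mp (a y) * vp (q y) = 1 := by
  obtain ⟨e, he⟩ := exists_sylEquiv (mp_monic (a x)) (mp_monic (b x)) (mp_natDegree (a x))
    (mp_natDegree (b x)) hcop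
  let S : G → ((Fin k → ℂ) × (Fin m → ℂ)) →L[ℂ] (Fin (k + m) → ℂ) := fun y =>
    fderiv ℂ (mulm k m) (a y, b y)
  have hSx : S x = e := by
    simp only [S, mulm_fderiv]
    exact he.symm
  have hD : ContDiff ℂ ∞ (fderiv ℂ (mulm k m)) :=
    (mulm_contDiff k m).fderiv_right (by simp)
  have hSs : ContDiffAt ℝ r S x := by
    have h1 : ContDiffAt ℝ r (fderiv ℂ (mulm k m)) (a x, b x) :=
      ((hD.contDiffAt).restrict_scalars ℝ).of_le (by exact_mod_cast le_top)
    exact h1.comp x (ha.prodMk hb)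
  have hinv : ContDiffAt ℝ r (fun y => ContinuousLinearMap.inverse (S y)) x := by
    have h1 : ContDiffAt ℝ r
        (ContinuousLinearMap.inverse : (((Fin k → ℂ) × (Fin m → ℂ)) →L[ℂ] (Fin (k + m) → ℂ)) → _)
        (S x) := by
      rw [hSx]
      exact ((contDiffAt_map_inverse (𝕜 := ℂ) (n := r) e).restrict_scalars ℝ)
    exact h1.comp x hSs
  have hpq : ContDiffAt ℝ r (fun y => ContinuousLinearMap.inverse (S y) (cv (k + m) 1)) x := by
    let ev : ((Fin (k + m) → ℂ) →L[ℂ] ((Fin k → ℂ) × (Fin m → ℂ))) →L[ℂ]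
        ((Fin k → ℂ) × (Fin m → ℂ)) := ContinuousLinearMap.apply ℂ _ (cv (k + m) 1)
    have h2 : ContDiff ℝ r ev := (ev.contDiff (n := r)).restrict_scalars ℝ
    exact (h2.contDiffAt).comp x hinv
  have hev : ∀ᶠ y in 𝓝 x, (S y).IsInvertible := by
    have h1 := ContinuousLinearEquiv.nhds e
    rw [← hSx] at h1
    filter_upwards [hSs.continuousAt.preimage_mem_nhds h1] with y hy
    exact hy
  refine ⟨fun y => (ContinuousLinearMap.inverse (S y) (cv (k + m) 1)).1,
    fun y => (ContinuousLinearMap.inverse (S y) (cv (k + m) 1)).2,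
    contDiffAt_fst.comp x hpq, contDiffAt_snd.comp x hpq, ?_⟩
  filter_upwards [hev] with y hy
  have h3 := hy.self_apply_inverse (cv (k + m) 1)
  set pq := ContinuousLinearMap.inverse (S y) (cv (k + m) 1) with hpqd
  have h4 : S y pq = cv (k + m) (vp pq.1 * mp (b y) + mp (a y) * vp pq.2) := by
    simp only [S, mulm_fderiv]
    rfl
  rw [h4] at h3
  have hdeg : (vp pq.1 * mp (b y) + mp (a y) * vp pq.2).degree < ((k + m : ℕ) : WithBot ℕ) := by
    refine lt_of_le_of_lt (degree_add_le _ _) ?_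
    rw [degree_mul, degree_mul, mp_degree, mp_degree, Nat.cast_add]
    apply max_lt
    · exact WithBot.add_lt_add_right (by simp) (degree_vp_lt pq.1)
    · exact WithBot.add_lt_add_left (by simp) (degree_vp_lt pq.2)
  have hdeg1 : (1 : ℂ[X]).degree < ((k + m : ℕ) : WithBot ℕ) := by
    rw [degree_one]
    exact_mod_cast hkm
  rw [← vp_cv hdeg, h3, vp_cv hdeg1]

end bezout

section identities

theorem monic_dvd_const {k : ℕ} (a : Fin k → ℂ) {W : ℂ[X]} (h : mp a ∣ W)
    (hW : W.natDegree ≤ k) : W = C (W.coeff k) * mp a := by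
  obtain ⟨Q, hQ⟩ := h
  rcases eq_or_ne Q 0 with h0 | h0
  · rw [hQ, h0]; simp
  have h1 : W.natDegree = k + Q.natDegree := by
    rw [hQ, (mp_monic a).natDegree_mul' h0, mp_natDegree]
  have h2 : Q.natDegree = 0 := by omega
  obtain ⟨c, hc⟩ := natDegree_eq_zero.mp h2
  have h3 : W.coeff k = c := by
    rw [hQ, ← hc, coeff_mul_C]
    have := (mp_monic a).coeff_natDegree
    rw [mp_natDegree] at this
    rw [this, one_mul]
  rw [h3, hQ, ← hc, mul_comm]

/-- From the identity for a product to the identity for a factor. -/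
theorem factor_identity {k m : ℕ} (a : Fin (k + 1) → ℂ) (b : Fin m → ℂ)
    (hcop : IsCoprime (mp a) (mp b)) (a1 a2 : Fin (k + 1) → ℂ) (b1 b2 : Fin m → ℂ) (t : ℂ)
    (h : vp a2 * mp b + mp a * vp b2 = X * (vp a1 * mp b + mp a * vp b1) + C t * (mp a * mp b)) :
    vp a2 = X * vp a1 + C (- a1 (Fin.last k)) * mp a := by
  have h1 : mp a ∣ (vp a2 - X * vp a1) * mp b := by
    refine ⟨X * vp b1 - vp b2 + C t * mp b, ?_⟩
    linear_combination h
  have h2 : mp a ∣ vp a2 - X * vp a1 := hcop.dvd_of_dvd_mul_right h1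
  have h3 : (vp a2 - X * vp a1).natDegree ≤ k + 1 := by
    rw [natDegree_le_iff_coeff_eq_zero]
    intro N hN
    obtain ⟨N', rfl⟩ : ∃ N', N = N' + 1 := ⟨N - 1, by omega⟩
    rw [coeff_sub, coeff_X_mul, coeff_vp, coeff_vp, dif_neg (by omega), dif_neg (by omega)]
    simp
  have h4 := monic_dvd_const a h2 h3
  have h5 : (vp a2 - X * vp a1).coeff (k + 1) = - a1 (Fin.last k) := by
    rw [coeff_sub, coeff_X_mul, coeff_vp, coeff_vp, dif_neg (by omega), dif_pos (by omega)]
    rw [zero_sub]; rfl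
  rw [h5] at h4
  linear_combination h4

end identities

section action

variable {E : Type*} [AddCommGroup E] [Module ℝ E]

/-- transpose action on complex valued functionals -/
def TT (A : E →ₗ[ℝ] E) : Module.End ℂ (E →ₗ[ℝ] ℂ) where
  toFun φ := φ.comp A
  map_add' _ _ := rfl
  map_smul' _ _ := rfl

theorem TT_pow (A : Module.End ℝ E) (φ : E →ₗ[ℝ] ℂ) (j : ℕ) (v : E) :
    ((TT A ^ j) φ) v = φ ((A ^ j) v) := by
  induction j generalizing v with
  | zero => simp
  | succ j ih =>
    rw [pow_succ', Module.End.mul_apply]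
    change ((TT A ^ j) φ) (A v) = _
    rw [ih, pow_succ, Module.End.mul_apply]

theorem aeval_TT (A : Module.End ℝ E) (P : ℂ[X]) {N : ℕ} (hN : P.natDegree < N)
    (φ : E →ₗ[ℝ] ℂ) (v : E) :
    (aeval (TT A) P φ) v = ∑ j ∈ Finset.range N, P.coeff j * φ ((A ^ j) v) := by
  rw [aeval_eq_sum_range' hN]
  simp only [LinearMap.sum_apply, LinearMap.smul_apply, TT_pow, smul_eq_mul]

theorem aeval_factor {k : ℕ} (A : Module.End ℝ E) (a : Fin (k + 1) → ℂ)
    (α : E →ₗ[ℝ] (Fin (k + 1) → ℂ)) (dg : E →ₗ[ℝ] ℂ)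
    (h : ∀ v, vp (α (A v)) = X * vp (α v) + C (dg v) * mp a) :
    aeval (TT A) (mp a) dg = 0 := by
  ext v
  rw [aeval_TT A (mp a) (N := k + 2) (by rw [mp_natDegree]; omega)]
  have h1 : ∀ j, (mp a).coeff j * dg ((A ^ j) v) =
      (X * vp (α ((A ^ (j + 1)) v))).coeff (j + 1) - (X * vp (α ((A ^ j) v))).coeff j := by
    intro j
    have h2 := congrArg (fun P => P.coeff j) (h ((A ^ j) v))
    simp only [coeff_add, coeff_C_mul] at h2
    rw [coeff_X_mul, pow_succ', Module.End.mul_apply, h2]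
    ring
  rw [Finset.sum_congr rfl fun j _ => h1 j]
  have h3 := Finset.sum_range_sub (fun j => (X * vp (α ((A ^ j) v))).coeff j) (k + 2)
  refine h3.trans ?_
  rw [coeff_X_mul, coeff_vp, dif_neg (by omega)]
  simp

/-- The real operator `J`. -/
theorem aeval_real_part {k : ℕ} (A : Module.End ℝ E) (a p q : Fin (k + 1) → ℂ)
    (hb : vp p * mp (fun i => starRingEnd ℂ (a i)) + mp a * vp q = 1) (dg : E →ₗ[ℝ] ℂ)
    (h : aeval (TT A) (mp a) dg = 0) (v : E) :
    dg ((∑ j ∈ Finset.range (2 * k + 2),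
      (2 * ((C Complex.I * vp p * mp (fun i => starRingEnd ℂ (a i))).coeff j).re) • (A ^ j)) v)
      = Complex.I * dg v := by
  set G : ℂ[X] := C Complex.I * vp p * mp (fun i => starRingEnd ℂ (a i)) with hG
  set G' : ℂ[X] := G.map (starRingEnd ℂ) with hG'
  have hconj : (mp (fun i => starRingEnd ℂ (a i))).map (starRingEnd ℂ) = mp a := by
    ext j
    rw [coeff_map]
    unfold mp
    rw [coeff_add, coeff_add, coeff_X_pow, coeff_vp, coeff_vp]
    split_ifs <;> simp
  have hdegG : G.natDegree < 2 * k + 2 := by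
    have h1 : (vp p).natDegree ≤ k := by
      rw [natDegree_le_iff_coeff_eq_zero]
      intro N hN
      rw [coeff_vp, dif_neg (by omega)]
    calc G.natDegree ≤ (C Complex.I * vp p).natDegree + (mp (fun i => starRingEnd ℂ (a i))).natDegree :=
          natDegree_mul_le
      _ ≤ k + (k + 1) := by
          apply Nat.add_le_add
          · exact (natDegree_C_mul_le _ _).trans h1
          · rw [mp_natDegree]
      _ < 2 * k + 2 := by omega
  have hdegG' : G'.natDegree < 2 * k + 2 := lt_of_le_of_lt natDegree_map_le hdegG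
  have hdegS : (G + G').natDegree < 2 * k + 2 :=
    lt_of_le_of_lt (natDegree_add_le _ _) (max_lt hdegG hdegG')
  have hdvd : ∃ H : ℂ[X], G + G' = C Complex.I + H * mp a := by
    refine ⟨- C Complex.I * vp q + (C Complex.I * vp p).map (starRingEnd ℂ), ?_⟩
    have h1 : G' = (C Complex.I * vp p).map (starRingEnd ℂ) * mp a := by
      rw [hG', hG, Polynomial.map_mul, hconj]
    rw [h1, hG]
    linear_combination C Complex.I * hb
  obtain ⟨H, hH⟩ := hdvd
  have h1 : aeval (TT A) (G + G') dg = Complex.I • dg := by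
    rw [hH, map_add, map_mul, LinearMap.add_apply, Module.End.mul_apply, h, map_zero, add_zero,
      aeval_C]
    rfl
  have h2 := congrArg (fun φ : E →ₗ[ℝ] ℂ => φ v) h1
  simp only [LinearMap.smul_apply, smul_eq_mul] at h2
  rw [aeval_TT A (G + G') hdegS] at h2
  rw [← h2, LinearMap.sum_apply, map_sum]
  refine Finset.sum_congr rfl fun j _ => ?_
  rw [LinearMap.smul_apply, map_smul, coeff_add]
  have h3 : G.coeff j + G'.coeff j = ((2 * (G.coeff j).re : ℝ) : ℂ) := by
    rw [hG', coeff_map, Complex.add_conj]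
  rw [h3]
  rfl

end action

end Nij
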