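import Pool.Agent.Nij.Basic

/-!
# Pairs (Nijenhuis operator, symmetry) with compact support
-/

open scoped ContDiff Topology

noncomputable section

namespace Nij

variable {E F : Type*} [NormedAddCommGroup E] [NormedSpace ℝ E]
  [NormedAddCommGroup F] [NormedSpace ℝ F]

/-- A smooth compactly supported operator field without torsion, together with a smooth
compactly supported vector field preserving it. -/
structure IsNP (K : E → E →L[ℝ] E) (Y : E → E) : Prop where
  smoothK : ContDiff ℝ ∞ K
  smoothY : ContDiff ℝ ∞ Y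
  suppK : HasCompactSupport K
  suppY : HasCompactSupport Y
  tors : ∀ p v w, tors K p v w = 0
  lie : ∀ p v, lie K Y p v = 0

/-- The pair `(T, y)` is realised by a pair `(K, Y)` near some point. -/
def Data (E V : Type*) [NormedAddCommGroup E] [NormedSpace ℝ E] [AddCommGroup V] [Module ℝ V]
    (T : V →ₗ[ℝ] V) (y : V) : Prop :=
  ∃ (K : E → E →L[ℝ] E) (Y : E → E), IsNP K Y ∧
    ∃ x₀, ∀ᶠ x in 𝓝 x₀, ∃ g : V ≃ₗ[ℝ] E, (∀ v, K x (g v) = g (T v)) ∧ Y x = g y

section basic

variable {V V' : Type*} [AddCommGroup V] [Module ℝ V] [AddCommGroup V'] [Module ℝ V']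
  {T : V →ₗ[ℝ] V} {y : V} {T' : V' →ₗ[ℝ] V'} {y' : V'}

theorem Data.congrV (h : Data E V T y) (f : V ≃ₗ[ℝ] V') (hT : ∀ v, T' (f v) = f (T v))
    (hy : y' = f y) : Data E V' T' y' := by
  obtain ⟨K, Y, hKY, x₀, hx⟩ := h
  refine ⟨K, Y, hKY, x₀, hx.mono ?_⟩
  rintro x ⟨g, hg, hgy⟩
  refine ⟨f.symm.trans g, ?_, ?_⟩
  · intro v
    have := hg (f.symm v)
    simp only [LinearEquiv.trans_apply]
    rw [this]
    congr 1
    have h2 := hT (f.symm v)
    rw [LinearEquiv.apply_symm_apply] at h2
    rw [h2, LinearEquiv.symm_apply_apply]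
  · rw [hgy, hy]; simp

theorem Data.forget (h : Data E V T y) : Data E V T 0 := by
  obtain ⟨K, Y, hKY, x₀, hx⟩ := h
  refine ⟨K, fun _ => 0, ⟨hKY.smoothK, contDiff_const, hKY.suppK, ?_, hKY.tors, ?_⟩, x₀,
    hx.mono ?_⟩
  · exact HasCompactSupport.zero
  · intro p v
    exact lie_zero_right K p v
  · rintro x ⟨g, hg, -⟩
    exact ⟨g, hg, by simp⟩

/-- Transport to an isomorphic space. -/
theorem Data.transfer {E' : Type*} [NormedAddCommGroup E'] [NormedSpace ℝ E']
    (h : Data E V T y) (e : E ≃L[ℝ] E') : Data E' V T y := by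
  obtain ⟨K, Y, hKY, x₀, hx⟩ := h
  have hKd : Differentiable ℝ K := hKY.smoothK.differentiable (by simp)
  have hYd : Differentiable ℝ Y := hKY.smoothY.differentiable (by simp)
  refine ⟨fun x => (e : E →L[ℝ] E').comp ((K (e.symm x)).comp (e.symm : E' →L[ℝ] E)),
    fun x => e (Y (e.symm x)), ⟨?_, ?_, ?_, ?_, ?_, ?_⟩, e x₀, ?_⟩
  · exact contDiff_const.clm_comp ((hKY.smoothK.comp e.symm.contDiff).clm_comp contDiff_const)
  · exact e.contDiff.comp (hKY.smoothY.comp e.symm.contDiff)
  · have h1 : HasCompactSupport (K ∘ e.symm) :=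
      hKY.suppK.comp_homeomorph e.symm.toHomeomorph
    refine h1.mono ?_
    intro x hx hx'
    apply hx
    simp only [Function.comp] at hx'
    simp only []
    rw [hx']
    simp
  · have h1 : HasCompactSupport (Y ∘ e.symm) :=
      hKY.suppY.comp_homeomorph e.symm.toHomeomorph
    refine h1.mono ?_
    intro x hx hx'
    apply hx
    simp only [Function.comp] at hx'
    simp only []
    rw [hx']
    simp
  · intro p v w
    refine tors_lift (κ := fun x => K (e.symm x)) (φ := fun _ => (e.symm : E' →L[ℝ] E))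
      (ι := fun _ => (e : E →L[ℝ] E')) (z := p) ?_ ?_ ?_ ?_ ?_ ?_ (fderiv ℝ K (e.symm p)) ?_ ?_ v w
    · exact (hKd _).comp p e.symm.differentiableAt
    · exact differentiableAt_const _
    · exact differentiableAt_const _
    · exact Filter.Eventually.of_forall fun z => by ext; simp
    · intro a b; simp
    · intro u w; simp
    · intro u
      have : HasFDerivAt (fun x => K (e.symm x)) _ p :=
        (hKd (e.symm p)).hasFDerivAt.comp p e.symm.hasFDerivAt
      rw [this.fderiv]; rfl
    · intro a b
      exact hKY.tors _ _ _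
  · intro p v
    have h1 : HasFDerivAt (fun x => K (e.symm x)) _ p :=
        (hKd (e.symm p)).hasFDerivAt.comp p e.symm.hasFDerivAt
    have h2 : HasFDerivAt (fun x => (K (e.symm x)).comp (e.symm : E' →L[ℝ] E)) _ p :=
      h1.clm_comp (hasFDerivAt_const _ _)
    have h3 : HasFDerivAt (fun x => (e : E →L[ℝ] E').comp
      ((K (e.symm x)).comp (e.symm : E' →L[ℝ] E))) _ p := (hasFDerivAt_const _ _).clm_comp h2
    have h4 : HasFDerivAt (fun x => e (Y (e.symm x))) _ p :=
      e.hasFDerivAt.comp p ((hYd (e.symm p)).hasFDerivAt.comp p e.symm.hasFDerivAt)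
    have h5 := congrArg e (hKY.lie (e.symm p) (e.symm v))
    unfold Nij.lie at h5 ⊢
    rw [h3.fderiv, h4.fderiv]
    simp only [map_sub, map_zero] at h5
    simpa using h5
  · have h1 : Filter.Tendsto e.symm (𝓝 (e x₀)) (𝓝 x₀) := by
      have := e.symm.continuous.tendsto (e x₀)
      rwa [e.symm_apply_apply] at this
    refine (h1.eventually hx).mono ?_
    rintro x ⟨g, hg, hgy⟩
    refine ⟨g.trans e.toLinearEquiv, ?_, ?_⟩
    · intro v
      simp [hg]
    · simp [hgy]

/-- Adding a scalar. -/
theorem Data.shift [FiniteDimensional ℝ E] (h : Data E V T y) (c : ℝ) :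
    Data E V (T + c • LinearMap.id) y := by
  obtain ⟨K, Y, hKY, x₀, hx⟩ := h
  have hKd : Differentiable ℝ K := hKY.smoothK.differentiable (by simp)
  have hYd : Differentiable ℝ Y := hKY.smoothY.differentiable (by simp)
  obtain ⟨R, hR0, hR⟩ : ∃ R : ℝ, 0 < R ∧ ∀ x, R ≤ ‖x‖ → K x = 0 ∧ Y x = 0 := by
    obtain ⟨R1, h1⟩ := hKY.suppK.isCompact.isBounded.exists_norm_le
    obtain ⟨R2, h2⟩ := hKY.suppY.isCompact.isBounded.exists_norm_le
    refine ⟨max 0 (max R1 R2) + 1, by positivity, fun x hx => ⟨?_, ?_⟩⟩
    · by_contra hne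
      have := h1 x (subset_tsupport _ hne)
      have h3 : R1 ≤ max 0 (max R1 R2) := (le_max_left _ _).trans (le_max_right _ _)
      linarith
    · by_contra hne
      have := h2 x (subset_tsupport _ hne)
      have h3 : R2 ≤ max 0 (max R1 R2) := (le_max_right _ _).trans (le_max_right _ _)
      linarith
  set R' := R + ‖x₀‖ + 1 with hR'
  have hR'0 : 0 < R' := by positivity
  let b : ContDiffBump (0 : E) := ⟨R', R' + 1, hR'0, by linarith⟩
  have hb1 : ∀ x, ‖x‖ < R' → b =ᶠ[𝓝 x] fun _ => 1 := by
    intro x hx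
    have : Metric.ball (0 : E) R' ∈ 𝓝 x := Metric.isOpen_ball.mem_nhds (by simpa using hx)
    filter_upwards [this] with z hz
    exact b.one_of_mem_closedBall (Metric.ball_subset_closedBall hz)
  have hK0 : ∀ x, R < ‖x‖ → K =ᶠ[𝓝 x] fun _ => 0 := by
    intro x hx
    filter_upwards [(isOpen_lt continuous_const continuous_norm).mem_nhds hx] with z hz
    exact (hR z (le_of_lt hz)).1
  have hY0 : ∀ x, R < ‖x‖ → Y =ᶠ[𝓝 x] fun _ => 0 := by
    intro x hx
    filter_upwards [(isOpen_lt continuous_const continuous_norm).mem_nhds hx] with z hz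
    exact (hR z (le_of_lt hz)).2
  have hbd : Differentiable ℝ b := b.contDiff.differentiable (n := ∞) (by simp)
  -- the scalar field
  let S : E → E →L[ℝ] E := fun x => (c * b x) • ContinuousLinearMap.id ℝ E
  have hSd : Differentiable ℝ S := by
    intro x
    exact ((hbd x).const_mul c).smul_const _
  have hSs : ContDiff ℝ ∞ S := (contDiff_const.mul b.contDiff).smul contDiff_const
  have hS' : ∀ x u w, fderiv ℝ S x u w = (c * fderiv ℝ b x u) • w := by
    intro x u w
    have : HasFDerivAt S _ x := ((hbd x).hasFDerivAt.const_mul c).smul_const _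
    rw [this.fderiv]
    simp
  refine ⟨fun x => K x + S x, Y, ⟨hKY.smoothK.add hSs, hKY.smoothY, ?_, hKY.suppY, ?_, ?_⟩,
    x₀, ?_⟩
  · refine hKY.suppK.add ?_
    refine b.hasCompactSupport.mono ?_
    intro x hx hbx
    apply hx
    simp only [S]
    rw [hbx]; simp
  · intro p v w
    by_cases hp : R < ‖p‖
    · have : (fun x => K x + S x) =ᶠ[𝓝 p] S := by
        filter_upwards [hK0 p hp] with z hz
        rw [hz, zero_add]
      rw [tors_congr this]
      unfold tors
      simp only [hS']
      simp only [S]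
      simp only [smul_apply, ContinuousLinearMap.id_apply, map_smul]
      module
    · have hb2 := hb1 p (by rw [hR']; have := norm_nonneg x₀; linarith [not_lt.mp hp])
      have : (fun x => K x + S x) =ᶠ[𝓝 p] fun x => K x + c • ContinuousLinearMap.id ℝ E := by
        filter_upwards [hb2] with z hz
        simp only [S]
        rw [hz, mul_one]
      rw [tors_congr this]
      have h0 := hKY.tors p v w
      unfold Nij.tors at h0 ⊢
      rw [fderiv_add_const]
      simp only [add_apply, smul_apply,
        ContinuousLinearMap.id_apply, map_smul, map_add] at h0 ⊢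
      rw [← h0]
      module
  · intro p v
    by_cases hp : R < ‖p‖
    · have : lie (fun x => K x + S x) Y p v = lie (fun x => K x + S x) (fun _ => 0) p v :=
        lie_congr (Filter.EventuallyEq.refl _ _) (hY0 p hp) v
      rw [this, lie_zero_right]
    · have hb2 := hb1 p (by rw [hR']; have := norm_nonneg x₀; linarith [not_lt.mp hp])
      have : (fun x => K x + S x) =ᶠ[𝓝 p] fun x => K x + c • ContinuousLinearMap.id ℝ E := by
        filter_upwards [hb2] with z hz
        simp only [S]
        rw [hz, mul_one]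
      rw [lie_congr this (Filter.EventuallyEq.refl _ _)]
      have h0 := hKY.lie p v
      unfold Nij.lie at h0 ⊢
      rw [fderiv_add_const]
      simp only [add_apply, smul_apply,
        ContinuousLinearMap.id_apply, map_smul, map_add] at h0 ⊢
      rw [← h0]
      module
  · have hb2 := hb1 x₀ (by rw [hR']; linarith)
    filter_upwards [hx, hb2] with x hx hbx
    obtain ⟨g, hg, hgy⟩ := hx
    refine ⟨g, ?_, hgy⟩
    intro v
    simp only [S, hbx]
    simp [hg]

/-- The zero operator with a nonzero symmetry. -/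
theorem Data.base [FiniteDimensional ℝ E] (g : V ≃ₗ[ℝ] E) : Data E V 0 y := by
  let b : ContDiffBump (0 : E) := ⟨1, 2, by norm_num, by norm_num⟩
  refine ⟨fun _ => 0, fun x => b x • g y, ⟨contDiff_const, b.contDiff.smul contDiff_const,
    HasCompactSupport.zero, ?_, fun p v w => tors_zero p v w, fun p v => lie_zero_left _ p v⟩,
    0, ?_⟩
  · refine b.hasCompactSupport.mono ?_
    intro x hx hbx
    apply hx
    simp only []
    rw [hbx]; simp
  · have : Metric.ball (0 : E) 1 ∈ 𝓝 (0 : E) := Metric.isOpen_ball.mem_nhds (by simp)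
    filter_upwards [this] with z hz
    have := b.one_of_mem_closedBall (Metric.ball_subset_closedBall hz)
    exact ⟨g, by simp, by rw [this, one_smul]⟩

end basic

end Nij
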