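import Pool.Agent.Nij.Local

/-!
# A compactly supported operator field without torsion has only real eigenvalues
-/

open scoped ContDiff Topology Polynomial
open Polynomial

noncomputable section

namespace Nij

variable {E : Type*} [NormedAddCommGroup E] [InnerProductSpace ℝ E] [FiniteDimensional ℝ E]

theorem eval_chc (A : E →L[ℝ] E) (z : ℂ) : (chc A).eval z =
    ∑ j ∈ Finset.range (Module.finrank ℝ E + 1), (((chp A).coeff j : ℝ) : ℂ) * z ^ j := by
  rw [eval_eq_sum_range' (n := Module.finrank ℝ E + 1) (by rw [chc_natDegree]; omega)]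
  refine Finset.sum_congr rfl fun j _ => ?_
  simp [chc]

theorem chc_zero_root {z : ℂ} (h : (chc (0 : E →L[ℝ] E)).IsRoot z) : z = 0 := by
  unfold chc chp at h
  have h1 : ((0 : E →L[ℝ] E) : E →ₗ[ℝ] E) = 0 := rfl
  rw [h1, LinearMap.charpoly_zero, Polynomial.map_pow, map_X, IsRoot.def, eval_pow, eval_X] at h
  exact eq_zero_of_pow_eq_zero h

theorem chc_conj_root {A : E →L[ℝ] E} {z : ℂ} (h : (chc A).IsRoot z) :
    (chc A).IsRoot (starRingEnd ℂ z) := by
  rw [IsRoot.def, eval_chc] at h ⊢
  have h1 := congrArg (starRingEnd ℂ) h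
  rw [map_zero, map_sum] at h1
  rw [← h1]
  refine Finset.sum_congr rfl fun j _ => ?_
  simp

theorem all_real {L : E → E →L[ℝ] E} (hL : ContDiff ℝ ∞ L) (hs : HasCompactSupport L)
    (ht : ∀ x v w, tors L x v w = 0) {x : E} {z : ℂ} (hz : (chc (L x)).IsRoot z) : z.im = 0 := by
  by_contra hne
  -- a root with positive imaginary part
  obtain ⟨z1, hz1, hz1pos⟩ : ∃ z1, (chc (L x)).IsRoot z1 ∧ 0 < z1.im := by
    rcases lt_or_gt_of_ne hne with h | h
    · exact ⟨starRingEnd ℂ z, chc_conj_root hz, by rw [Complex.conj_im]; linarith⟩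
    · exact ⟨z, hz, h⟩
  set n := Module.finrank ℝ E with hn
  have hcoef : ∀ j, Continuous fun y => (chp (L y)).coeff j := fun j =>
    (contDiff_chp_coeff j).continuous.comp hL.continuous
  have hevc : Continuous fun p : E × ℂ => (chc (L p.1)).eval p.2 := by
    have : (fun p : E × ℂ => (chc (L p.1)).eval p.2) = fun p : E × ℂ =>
        ∑ j ∈ Finset.range (n + 1), (((chp (L p.1)).coeff j : ℝ) : ℂ) * p.2 ^ j := by
      funext p; exact eval_chc _ _
    rw [this]
    refine continuous_finsetSum _ fun j _ => ?_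
    exact (Complex.continuous_ofReal.comp ((hcoef j).comp continuous_fst)).mul
      (continuous_snd.pow j)
  let Γ : Set (E × ℂ) := {p | (chc (L p.1)).IsRoot p.2 ∧ z1.im ≤ p.2.im}
  have hΓcl : IsClosed Γ := by
    refine IsClosed.inter ?_ ?_
    · exact isClosed_eq hevc continuous_const
    · exact isClosed_le continuous_const (Complex.continuous_im.comp continuous_snd)
  have hsupp : ∀ p ∈ Γ, p.1 ∈ tsupport L := by
    rintro ⟨y, w⟩ ⟨hp1, hp2⟩
    apply subset_tsupport
    intro h0
    simp only [h0] at hp1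
    have := chc_zero_root hp1
    rw [this] at hp2
    simp only [Complex.zero_im] at hp2
    linarith
  -- bound on the roots
  obtain ⟨C, hC⟩ : ∃ C : ℝ, ∀ y ∈ tsupport L, ∀ j ∈ Finset.range n, |(chp (L y)).coeff j| ≤ C := by
    have h1 : ∀ j, ∃ C : ℝ, ∀ y ∈ tsupport L, |(chp (L y)).coeff j| ≤ C := by
      intro j
      obtain ⟨C, hC⟩ := hs.isCompact.bddAbove_image ((hcoef j).abs.continuousOn (s := tsupport L))
      exact ⟨C, fun y hy => hC ⟨y, hy, rfl⟩⟩
    choose C hC using h1
    refine ⟨∑ j ∈ Finset.range n, |C j|, fun y hy j hj => ?_⟩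
    calc |(chp (L y)).coeff j| ≤ C j := hC j y hy
      _ ≤ |C j| := le_abs_self _
      _ ≤ ∑ j ∈ Finset.range n, |C j| :=
        Finset.single_le_sum (f := fun j => |C j|) (fun i _ => abs_nonneg _) hj
  have hCn : ∀ y ∈ tsupport L, ∀ w : ℂ, (chc (L y)).IsRoot w → ‖w‖ ≤ n * |C| + 1 := by
    intro y hy w hw
    by_contra hlt
    push Not at hlt
    have hw1 : 1 < ‖w‖ := by
      have : 0 ≤ (n : ℝ) * |C| := by positivity
      linarith
    rw [IsRoot.def, eval_chc, Finset.sum_range_succ] at hw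
    have hlead : (chp (L y)).coeff (Module.finrank ℝ E) = 1 := by
      have := (chp_monic (L y)).coeff_natDegree
      rwa [chp_natDegree] at this
    rw [hlead] at hw
    have h1 : w ^ n = - ∑ j ∈ Finset.range n, (((chp (L y)).coeff j : ℝ) : ℂ) * w ^ j := by
      rw [Complex.ofReal_one, one_mul] at hw
      rw [eq_neg_iff_add_eq_zero, add_comm]
      exact hw
    have h2 : ‖w‖ ^ n ≤ ∑ j ∈ Finset.range n, |C| * ‖w‖ ^ (n - 1) := by
      rw [← norm_pow, h1, norm_neg]
      refine (norm_sum_le _ _).trans (Finset.sum_le_sum fun j hj => ?_)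
      rw [norm_mul, Complex.norm_real, norm_pow, Real.norm_eq_abs]
      apply mul_le_mul
      · exact (hC y hy j hj).trans (le_abs_self C)
      · exact pow_le_pow_right₀ hw1.le (by have := Finset.mem_range.mp hj; omega)
      · positivity
      · positivity
    rw [Finset.sum_const, Finset.card_range, nsmul_eq_mul] at h2
    rcases Nat.eq_zero_or_pos n with h0 | hpos
    · rw [h0] at h2
      simp at h2
      linarith
    · have h3 : ‖w‖ ^ n = ‖w‖ * ‖w‖ ^ (n - 1) := by
        rw [← pow_succ']; congr 1; omega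
      rw [h3, ← mul_assoc] at h2
      have h4 : 0 < ‖w‖ ^ (n - 1) := by positivity
      have h5 := le_of_mul_le_mul_right h2 h4
      linarith
  have hΓc : IsCompact Γ := by
    refine ((hs.isCompact).prod (isCompact_closedBall (0 : ℂ) (n * |C| + 1))).of_isClosed_subset
      hΓcl ?_
    rintro ⟨y, w⟩ hp
    have hy := hsupp _ hp
    exact ⟨hy, by rw [mem_closedBall_zero_iff]; exact hCn y hy w hp.1⟩
  obtain ⟨⟨x2, z2⟩, hp2, hmax2⟩ := hΓc.exists_isMaxOn ⟨(x, z1), hz1, le_rfl⟩
    ((Complex.continuous_im.comp continuous_snd).continuousOn)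
  set M := z2.im with hM
  have hMz1 : z1.im ≤ M := hp2.2
  have hMpos : 0 < M := lt_of_lt_of_le hz1pos hMz1
  have hmax : ∀ y w, (chc (L y)).IsRoot w → w.im ≤ M := by
    intro y w hw
    by_cases h : z1.im ≤ w.im
    · have : (y, w) ∈ Γ := ⟨hw, h⟩
      exact hmax2 this
    · linarith [not_le.mp h]
  let S : Set E := {y | ∃ w, (chc (L y)).IsRoot w ∧ w.im = M}
  have hSo : IsOpen S := by
    rw [isOpen_iff_mem_nhds]
    rintro y ⟨w, hw, hwM⟩
    exact local_const hL ht hMpos hmax hw hwM
  have hSc : IsCompact S := by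
    have h1 : IsCompact (Γ ∩ {p : E × ℂ | p.2.im = M}) :=
      hΓc.inter_right (isClosed_eq (Complex.continuous_im.comp continuous_snd) continuous_const)
    have h2 : S = Prod.fst '' (Γ ∩ {p : E × ℂ | p.2.im = M}) := by
      ext y
      constructor
      · rintro ⟨w, hw, hwM⟩
        exact ⟨(y, w), ⟨⟨hw, by rw [hwM]; exact hMz1⟩, hwM⟩, rfl⟩
      · rintro ⟨⟨y', w⟩, ⟨⟨hw, -⟩, hwM⟩, rfl⟩
        exact ⟨w, hw, hwM⟩
    rw [h2]
    exact h1.image continuous_fst
  have hSne : S.Nonempty := ⟨x2, z2, hp2.1, rfl⟩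
  have hSuniv : S = Set.univ := IsClopen.eq_univ ⟨hSc.isClosed, hSo⟩ hSne
  rw [hSuniv] at hSc
  have hnpos : 0 < Module.finrank ℝ E := by
    by_contra h0
    have h0' : Module.finrank ℝ E = 0 := by omega
    have h1 : (chc (L x)).natDegree = 0 := by rw [chc_natDegree, h0']
    have h2 := (chc_monic (L x)).natDegree_eq_zero.mp h1
    rw [h2] at hz
    simp at hz
  have : Nontrivial E := Module.nontrivial_of_finrank_pos (R := ℝ) hnpos
  have hnc : NoncompactSpace E := NormedSpace.noncompactSpace ℝ E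
  exact noncompact_univ E hSc

end Nij
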