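import Mathlib

/-!
# A strong maximum principle (E. Hopf)
-/

open scoped ContDiff Topology RealInnerProductSpace
open Metric

noncomputable section

namespace Nij

section test

variable {E : Type*} [NormedAddCommGroup E] [NormedSpace ℝ E]

/-- Second order necessary condition at a local maximum. -/
theorem second_deriv_nonpos {w : E → ℝ} {y : E} (hw : ContDiffAt ℝ 2 w y) (hmax : IsLocalMax w y)
    (h : E) : fderiv ℝ (fderiv ℝ w) y h h ≤ 0 := by
  by_contra hpos
  push Not at hpos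
  -- the restriction to a line
  set f : ℝ → ℝ := fun t => w (y + t • h) with hf
  have hline : ∀ t : ℝ, HasDerivAt (fun t : ℝ => y + t • h) h t := by
    intro t
    simpa using ((hasDerivAt_id t).smul_const h).const_add y
  have hcont : Filter.Tendsto (fun t : ℝ => y + t • h) (𝓝 0) (𝓝 y) := by
    have := (hline 0).continuousAt.tendsto
    simpa using this
  have hdiff : ∀ᶠ x in 𝓝 y, DifferentiableAt ℝ w x := by
    filter_upwards [hw.eventually (by simp)] with x hx
    exact hx.differentiableAt (by simp)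
  have hd1 : ∀ᶠ t in 𝓝 (0 : ℝ), deriv f t = fderiv ℝ w (y + t • h) h := by
    filter_upwards [hcont.eventually hdiff] with t ht
    exact (ht.hasFDerivAt.comp_hasDerivAt t (hline t)).deriv
  have hd2 : HasDerivAt (fun t : ℝ => fderiv ℝ w (y + t • h) h) (fderiv ℝ (fderiv ℝ w) y h h) 0 := by
    have h1 : DifferentiableAt ℝ (fderiv ℝ w) y := by
      have : ContDiffAt ℝ 1 (fderiv ℝ w) y := hw.fderiv_right (by norm_num)
      exact this.differentiableAt (by simp)
    have h2 : HasFDerivAt (fderiv ℝ w) (fderiv ℝ (fderiv ℝ w) y) (y + (0 : ℝ) • h) := by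
      simpa using h1.hasFDerivAt
    have h3 := h2.comp_hasDerivAt (0 : ℝ) (hline 0)
    have h4 := h3.clm_apply (hasDerivAt_const (0 : ℝ) h)
    simpa using h4
  have hdd : deriv (deriv f) 0 = fderiv ℝ (fderiv ℝ w) y h h := by
    have : deriv f =ᶠ[𝓝 0] fun t : ℝ => fderiv ℝ w (y + t • h) h := hd1
    rw [this.deriv_eq, hd2.deriv]
  have hmaxf : IsLocalMax f 0 := by
    have : ∀ᶠ x in 𝓝 y, w x ≤ w y := hmax
    have h2 := hcont.eventually this
    simpa [IsLocalMax, IsMaxFilter, f] using h2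
  have hd0 : deriv f 0 = 0 := hmaxf.deriv_eq_zero
  have hcf : ContinuousAt f 0 := by
    have h1 : ContinuousAt w (y + (0 : ℝ) • h) := by simpa using hw.continuousAt
    exact ContinuousAt.comp (f := fun t : ℝ => y + t • h) (g := w) h1 (hline 0).continuousAt
  have hminf : IsLocalMin f 0 := isLocalMin_of_deriv_deriv_pos (by rw [hdd]; exact hpos) hd0 hcf
  have hconst : f =ᶠ[𝓝 0] fun _ => f 0 := by
    filter_upwards [hmaxf, hminf] with t h1 h2
    exact le_antisymm h1 h2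
  have h5 : deriv f =ᶠ[𝓝 0] fun _ => 0 := by
    have := hconst.deriv
    filter_upwards [this] with t ht
    rw [ht]
    simp
  have h6 : deriv (deriv f) 0 = 0 := by
    rw [h5.deriv_eq]
    simp
  rw [hdd] at h6
  linarith

end test

section barrier

variable {E : Type*} [NormedAddCommGroup E] [InnerProductSpace ℝ E]

/-- the barrier -/
def bar (c : E) (α : ℝ) (x : E) : ℝ := Real.exp (-α * ‖x - c‖ ^ 2)

theorem bar_hasFDerivAt (c : E) (α : ℝ) (x : E) :
    HasFDerivAt (bar c α) ((-2 * α * bar c α x) • innerSL ℝ (x - c)) x := by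
  have h1 : HasFDerivAt (fun x : E => x - c) (ContinuousLinearMap.id ℝ E) x :=
    (hasFDerivAt_id x).sub_const c
  have h2 : HasFDerivAt (fun x : E => -α * ‖x - c‖ ^ 2) _ x := (h1.norm_sq).const_mul (-α)
  have h3 : HasFDerivAt (bar c α) _ x := h2.exp
  refine h3.congr_fderiv ?_
  ext v
  simp [bar]
  ring

theorem bar_contDiff (c : E) (α : ℝ) : ContDiff ℝ ∞ (bar c α) := by
  unfold bar
  exact (contDiff_const.mul ((contDiff_id.sub contDiff_const).norm_sq ℝ)).exp

theorem bar_fderiv (c : E) (α : ℝ) :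
    fderiv ℝ (bar c α) = fun x => (-2 * α * bar c α x) • innerSL ℝ (x - c) := by
  funext x
  exact (bar_hasFDerivAt c α x).fderiv

theorem bar_second (c : E) (α : ℝ) (x h : E) :
    fderiv ℝ (fderiv ℝ (bar c α)) x h h =
      bar c α x * (4 * α ^ 2 * ⟪x - c, h⟫ ^ 2 - 2 * α * ‖h‖ ^ 2) := by
  rw [bar_fderiv]
  have h1 : HasFDerivAt (fun x : E => innerSL ℝ (x - c)) (innerSL ℝ) x :=
    (innerSL ℝ).hasFDerivAt.comp x ((hasFDerivAt_id x).sub_const c)
  have h2 : HasFDerivAt (fun x : E => (-2 * α * bar c α x)) _ x :=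
    (bar_hasFDerivAt c α x).const_mul (-2 * α)
  have h3 := h2.smul h1
  have h4 : fderiv ℝ (fun x => (-2 * α * bar c α x) • innerSL ℝ (x - c)) x = _ := h3.fderiv
  rw [h4]
  have h5 : (innerSL ℝ h) h = ‖h‖ ^ 2 := real_inner_self_eq_norm_sq h
  have h6 : (innerSL ℝ (x - c)) h = ⟪x - c, h⟫ := rfl
  simp only [add_apply, smul_apply, ContinuousLinearMap.smulRight_apply, h5, h6, smul_eq_mul]
  ring

end barrier

section strong

variable {E : Type*} [NormedAddCommGroup E] [InnerProductSpace ℝ E] [FiniteDimensional ℝ E]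

omit [FiniteDimensional ℝ E] in
theorem strict_ball {x1 s : E} {y : E} (hy : ‖y - (1 / 2 : ℝ) • (x1 + s)‖ ≤ ‖s - x1‖ / 2)
    (hys : y ≠ s) : ‖y - x1‖ < ‖s - x1‖ := by
  by_contra hge
  push Not at hge
  apply hys
  set p := y - (1 / 2 : ℝ) • (x1 + s) with hp
  set q := (1 / 2 : ℝ) • (s - x1) with hq
  have h1 : p + q = y - x1 := by rw [hp, hq]; module
  have h2 : p - q = y - s := by rw [hp, hq]; module
  have hqn : ‖q‖ = ‖s - x1‖ / 2 := by
    rw [hq, norm_smul]; norm_num; ring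
  have h3 := parallelogram_law_with_norm ℝ p q
  rw [h1, h2] at h3
  have h4 : ‖y - s‖ * ‖y - s‖ ≤ 0 := by
    have h5 : ‖p‖ * ‖p‖ ≤ (‖s - x1‖ / 2) * (‖s - x1‖ / 2) :=
      mul_self_le_mul_self (norm_nonneg _) hy
    have h6 : ‖s - x1‖ * ‖s - x1‖ ≤ ‖y - x1‖ * ‖y - x1‖ :=
      mul_self_le_mul_self (norm_nonneg _) hge
    rw [hqn] at h3
    nlinarith
  have h7 : ‖y - s‖ = 0 := by
    have := mul_self_nonneg ‖y - s‖
    exact mul_self_eq_zero.mp (le_antisymm h4 this)
  exact sub_eq_zero.mp (norm_eq_zero.mp h7)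

/-- The strong maximum principle of E. Hopf for (possibly non divergence form) elliptic
inequalities written with finitely many vector fields. -/
theorem strong_max {ι : Type*} [Fintype ι] {Ω : Set E} (hΩ : IsOpen Ω) {u : E → ℝ}
    (hu : ∀ x ∈ Ω, ContDiffAt ℝ 2 u x) {V : ι → E → E} {b : E → E}
    (hV : ∀ k, ContinuousOn (V k) Ω) (hb : ContinuousOn b Ω)
    (hell : ∀ x ∈ Ω, ∀ y : E, ‖y‖ ^ 2 ≤ ∑ k, ⟪y, V k x⟫ ^ 2)
    (hP : ∀ x ∈ Ω, 0 ≤ ∑ k, fderiv ℝ (fderiv ℝ u) x (V k x) (V k x) + fderiv ℝ u x (b x))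
    {m : ℝ} (hm : ∀ x ∈ Ω, u x ≤ m) {x0 : E} (hx0 : x0 ∈ Ω) (h0 : u x0 = m) :
    ∀ᶠ x in 𝓝 x0, u x = m := by
  obtain ⟨r, hr, hball⟩ := Metric.isOpen_iff.mp hΩ x0 hx0
  filter_upwards [Metric.ball_mem_nhds x0 (half_pos hr)] with x1 hx1
  by_contra hne
  have hx1Ω : x1 ∈ Ω := hball (Metric.ball_subset_ball (by linarith) hx1)
  rw [mem_ball_iff_norm] at hx1
  set R := ‖x0 - x1‖ with hR
  have hRr : R < r / 2 := by rw [hR, norm_sub_rev]; exact hx1
  have hcb : closedBall x1 R ⊆ Ω := by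
    intro y hy
    apply hball
    rw [mem_closedBall_iff_norm] at hy
    rw [mem_ball_iff_norm]
    have : ‖y - x0‖ ≤ ‖y - x1‖ + ‖x1 - x0‖ := norm_sub_le_norm_sub_add_norm_sub _ _ _
    linarith
  have hucont : ContinuousOn u Ω := fun x hx => (hu x hx).continuousAt.continuousWithinAt
  -- nearest point of the contact set
  have hZc : IsCompact (closedBall x1 R ∩ u ⁻¹' {m}) := by
    refine (isCompact_closedBall x1 R).of_isClosed_subset ?_ Set.inter_subset_left
    exact (hucont.mono hcb).preimage_isClosed_of_isClosed isClosed_closedBall isClosed_singleton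
  have hZne : (closedBall x1 R ∩ u ⁻¹' {m}).Nonempty :=
    ⟨x0, by rw [mem_closedBall_iff_norm], h0⟩
  obtain ⟨s, hs, hsmin⟩ := hZc.exists_isMinOn hZne
    (f := fun y => ‖y - x1‖) (by fun_prop)
  obtain ⟨hsR, hsm⟩ := hs
  rw [mem_closedBall_iff_norm] at hsR
  have hsm' : u s = m := hsm
  set ρ := ‖s - x1‖ with hρ
  have hρpos : 0 < ρ := by
    rw [hρ, norm_pos_iff, sub_ne_zero]
    rintro rfl
    exact hne hsm'
  have hsΩ : s ∈ Ω := hcb (by rw [mem_closedBall_iff_norm]; exact hsR)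
  have hlt : ∀ y, ‖y - x1‖ < ρ → u y ≠ m := by
    intro y hy hym
    have hyR : y ∈ closedBall x1 R ∩ u ⁻¹' {m} :=
      ⟨by rw [mem_closedBall_iff_norm]; linarith, hym⟩
    have : ρ ≤ ‖y - x1‖ := hsmin hyR
    linarith
  set c := (1 / 2 : ℝ) • (x1 + s) with hc
  have hsc : ‖s - c‖ = ρ / 2 := by
    have : s - c = (1 / 2 : ℝ) • (s - x1) := by rw [hc]; module
    rw [this, norm_smul, ← hρ]; norm_num; ring
  -- choice of delta
  obtain ⟨δ0, hδ0, hδball⟩ := Metric.isOpen_iff.mp hΩ s hsΩ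
  set δ := min (δ0 / 2) (ρ / 4) with hδ
  have hδpos : 0 < δ := lt_min (by linarith) (by linarith)
  have hδρ : δ ≤ ρ / 4 := min_le_right _ _
  have hcbδ : closedBall s δ ⊆ Ω := by
    intro y hy
    apply hδball
    rw [mem_closedBall] at hy
    rw [mem_ball]
    have : δ ≤ δ0 / 2 := min_le_left _ _
    linarith
  have hKc : IsCompact (closedBall s δ) := isCompact_closedBall s δ
  obtain ⟨C1, hC1⟩ : ∃ C : ℝ, ∀ x ∈ closedBall s δ, ∑ k, ‖V k x‖ ^ 2 ≤ C := by
    have hcont : ContinuousOn (fun x => ∑ k, ‖V k x‖ ^ 2) (closedBall s δ) :=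
      continuousOn_finsetSum _ fun k _ => (((hV k).mono hcbδ).norm.pow 2)
    obtain ⟨C, hC⟩ := hKc.bddAbove_image hcont
    exact ⟨C, fun x hx => hC ⟨x, hx, rfl⟩⟩
  obtain ⟨C2, hC2⟩ : ∃ C : ℝ, ∀ x ∈ closedBall s δ, ‖b x‖ ≤ C := by
    have hcont : ContinuousOn (fun x => ‖b x‖) (closedBall s δ) := ((hb.mono hcbδ).norm)
    obtain ⟨C, hC⟩ := hKc.bddAbove_image hcont
    exact ⟨C, fun x hx => hC ⟨x, hx, rfl⟩⟩
  have hsin : s ∈ closedBall s δ := mem_closedBall_self hδpos.le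
  have hC2' : 0 ≤ C2 := (norm_nonneg _).trans (hC2 s hsin)
  have hC1' : 0 ≤ C1 := (Finset.sum_nonneg fun k _ => sq_nonneg _).trans (hC1 s hsin)
  set α : ℝ := (C1 + ρ * C2 + 1) / (2 * (ρ / 4) ^ 2) with hα
  have hαpos : 0 < α := by positivity
  have hα2 : 2 * α * (ρ / 4) ^ 2 = C1 + ρ * C2 + 1 := by
    rw [hα]; field_simp
  -- the barrier satisfies the strict inequality
  have hPv : ∀ x ∈ closedBall s δ, 0 < ∑ k, fderiv ℝ (fderiv ℝ (bar c α)) x (V k x) (V k x)
      + fderiv ℝ (bar c α) x (b x) := by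
    intro x hx
    have hx' : ‖x - s‖ ≤ δ := by rwa [mem_closedBall_iff_norm] at hx
    have hlow : ρ / 4 ≤ ‖x - c‖ := by
      have : ‖s - c‖ ≤ ‖s - x‖ + ‖x - c‖ := norm_sub_le_norm_sub_add_norm_sub _ _ _
      rw [norm_sub_rev s x] at this
      linarith
    have hup : ‖x - c‖ ≤ ρ := by
      have : ‖x - c‖ ≤ ‖x - s‖ + ‖s - c‖ := norm_sub_le_norm_sub_add_norm_sub _ _ _
      linarith
    have hbarpos : 0 < bar c α x := Real.exp_pos _
    have e1 : fderiv ℝ (bar c α) x (b x) = bar c α x * (-2 * α * ⟪x - c, b x⟫) := by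
      rw [bar_fderiv]
      have h6 : (innerSL ℝ (x - c)) (b x) = ⟪x - c, b x⟫ := rfl
      simp only [smul_apply, h6, smul_eq_mul]
      ring
    have e2 : ∑ k, fderiv ℝ (fderiv ℝ (bar c α)) x (V k x) (V k x) =
        bar c α x * (4 * α ^ 2 * ∑ k, ⟪x - c, V k x⟫ ^ 2 - 2 * α * ∑ k, ‖V k x‖ ^ 2) := by
      simp only [bar_second]
      rw [← Finset.mul_sum, Finset.sum_sub_distrib, ← Finset.mul_sum, ← Finset.mul_sum]
    rw [e1, e2, ← mul_add]
    apply mul_pos hbarpos
    have h7 := hell x (hcbδ hx) (x - c)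
    have h8 : ⟪x - c, b x⟫ ≤ ρ * C2 := by
      calc ⟪x - c, b x⟫ ≤ ‖x - c‖ * ‖b x‖ := real_inner_le_norm _ _
        _ ≤ ρ * C2 := mul_le_mul hup (hC2 x hx) (norm_nonneg _) hρpos.le
    have h9 := hC1 x hx
    have h10 : (ρ / 4) ^ 2 ≤ ∑ k, ⟪x - c, V k x⟫ ^ 2 :=
      le_trans (pow_le_pow_left₀ (by positivity) hlow 2) h7
    have h11 : 2 * α * (2 * α * (ρ / 4) ^ 2) ≤ 2 * α * (2 * α * ∑ k, ⟪x - c, V k x⟫ ^ 2) := by
      apply mul_le_mul_of_nonneg_left _ (by positivity)
      exact mul_le_mul_of_nonneg_left h10 (by positivity)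
    have h12 : 2 * α * ∑ k, ‖V k x‖ ^ 2 ≤ 2 * α * C1 := mul_le_mul_of_nonneg_left h9 (by positivity)
    have h13 : 2 * α * ⟪x - c, b x⟫ ≤ 2 * α * (ρ * C2) :=
      mul_le_mul_of_nonneg_left h8 (by positivity)
    rw [hα2] at h11
    nlinarith
  set e0 : ℝ := Real.exp (-α * (ρ / 2) ^ 2) with he0
  have he0pos : 0 < e0 := Real.exp_pos _
  -- choice of epsilon
  have hK1 : IsCompact (sphere s δ ∩ closedBall c (ρ / 2)) :=
    (isCompact_sphere s δ).inter_right isClosed_closedBall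
  have hK1Ω : sphere s δ ⊆ Ω := sphere_subset_closedBall.trans hcbδ
  have hltm : ∀ y ∈ sphere s δ ∩ closedBall c (ρ / 2), u y < m := by
    rintro y ⟨hy1, hy2⟩
    refine lt_of_le_of_ne (hm y (hK1Ω hy1)) ?_
    apply hlt
    apply strict_ball
    · rw [mem_closedBall_iff_norm] at hy2
      exact hy2
    · rintro rfl
      rw [mem_sphere, dist_self] at hy1
      linarith
  obtain ⟨ε, hε, hεm⟩ : ∃ ε : ℝ, 0 < ε ∧ ∀ y ∈ sphere s δ ∩ closedBall c (ρ / 2),
      u y + ε * (bar c α y - e0) < m := by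
    rcases (sphere s δ ∩ closedBall c (ρ / 2)).eq_empty_or_nonempty with hemp | hnon
    · exact ⟨1, one_pos, by rw [hemp]; simp⟩
    · obtain ⟨y1, hy1, hy1max⟩ := hK1.exists_isMaxOn hnon
        ((hucont.mono hK1Ω).mono Set.inter_subset_left)
      have hη := hltm y1 hy1
      refine ⟨(m - u y1) / 2, by linarith, ?_⟩
      intro y hy
      have h1 : u y ≤ u y1 := hy1max hy
      have h2 : bar c α y ≤ 1 := by
        unfold bar
        rw [Real.exp_le_one_iff]
        have := sq_nonneg ‖y - c‖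
        nlinarith
      have h3 : (m - u y1) / 2 * (bar c α y - e0) ≤ (m - u y1) / 2 * 1 :=
        mul_le_mul_of_nonneg_left (by linarith) (by linarith)
      linarith
  set w : E → ℝ := fun x => u x + ε * (bar c α x - e0) with hw
  have hwsphere : ∀ y ∈ sphere s δ, w y < m := by
    intro y hy
    by_cases hyc : y ∈ closedBall c (ρ / 2)
    · exact hεm y ⟨hy, hyc⟩
    · rw [mem_closedBall_iff_norm, not_le] at hyc
      have h1 : bar c α y < e0 := by
        unfold bar
        rw [he0, Real.exp_lt_exp]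
        have : (ρ / 2) ^ 2 < ‖y - c‖ ^ 2 := pow_lt_pow_left₀ hyc (by positivity) (by norm_num)
        nlinarith
      have h2 := hm y (hK1Ω hy)
      have h3 : ε * (bar c α y - e0) < 0 := mul_neg_of_pos_of_neg hε (by linarith)
      simp only [hw]
      linarith
  have hws : w s = m := by
    simp only [hw]
    have : bar c α s = e0 := by
      unfold bar
      rw [hsc]
    rw [this, hsm']
    ring
  have hwcont : ContinuousOn w (closedBall s δ) := by
    have h1 : Continuous (bar c α) := (bar_contDiff c α).continuous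
    exact (hucont.mono hcbδ).add (continuousOn_const.mul (h1.continuousOn.sub continuousOn_const))
  obtain ⟨y, hy, hymax⟩ := hKc.exists_isMaxOn ⟨s, hsin⟩ hwcont
  have hyge : m ≤ w y := by rw [← hws]; exact hymax hsin
  have hyball : y ∈ ball s δ := by
    rw [mem_ball]
    rw [mem_closedBall] at hy
    refine lt_of_le_of_ne hy ?_
    intro heq
    have := hwsphere y (by rw [mem_sphere]; exact heq)
    linarith
  have hloc : IsLocalMax w y :=
    hymax.isLocalMax (Filter.mem_of_superset (isOpen_ball.mem_nhds hyball) ball_subset_closedBall)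
  have hyΩ : y ∈ Ω := hcbδ hy
  have huy := hu y hyΩ
  have hbc : ContDiff ℝ 2 (bar c α) := by
    exact_mod_cast (contDiff_infty.mp (bar_contDiff c α)) 2
  have hwy : ContDiffAt ℝ 2 w y :=
    huy.add (contDiffAt_const.mul (hbc.contDiffAt.sub contDiffAt_const))
  have hfw : ∀ᶠ x in 𝓝 y, fderiv ℝ w x = fderiv ℝ u x + ε • fderiv ℝ (bar c α) x := by
    filter_upwards [huy.eventually (by simp)] with x hx
    have h1 : HasFDerivAt w _ x := (hx.differentiableAt (by simp)).hasFDerivAt.add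
      (((bar_hasFDerivAt c α x).sub_const e0).const_mul ε)
    rw [h1.fderiv, bar_fderiv]
  have hfw2 : fderiv ℝ (fderiv ℝ w) y =
      fderiv ℝ (fderiv ℝ u) y + ε • fderiv ℝ (fderiv ℝ (bar c α)) y := by
    have h1 : fderiv ℝ w =ᶠ[𝓝 y] fun x => fderiv ℝ u x + ε • fderiv ℝ (bar c α) x := hfw
    rw [h1.fderiv_eq]
    have h2 : DifferentiableAt ℝ (fderiv ℝ u) y :=
      (huy.fderiv_right (m := 1) (by norm_num)).differentiableAt (by simp)
    have h3 : DifferentiableAt ℝ (fderiv ℝ (bar c α)) y :=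
      (hbc.contDiffAt.fderiv_right (m := 1) (by norm_num)).differentiableAt (by simp)
    exact (h2.hasFDerivAt.add (h3.hasFDerivAt.const_smul ε)).fderiv
  have hgrad : fderiv ℝ w y = 0 := hloc.fderiv_eq_zero
  have hsec : ∀ h, fderiv ℝ (fderiv ℝ w) y h h ≤ 0 := fun h => second_deriv_nonpos hwy hloc h
  have hfin1 : ∑ k, fderiv ℝ (fderiv ℝ w) y (V k y) (V k y) + fderiv ℝ w y (b y) ≤ 0 := by
    rw [hgrad]
    simp only [zero_apply, add_zero]
    exact Finset.sum_nonpos fun k _ => hsec _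
  have hfin2 : ∑ k, fderiv ℝ (fderiv ℝ w) y (V k y) (V k y) + fderiv ℝ w y (b y) =
      (∑ k, fderiv ℝ (fderiv ℝ u) y (V k y) (V k y) + fderiv ℝ u y (b y)) +
      ε * (∑ k, fderiv ℝ (fderiv ℝ (bar c α)) y (V k y) (V k y) + fderiv ℝ (bar c α) y (b y)) := by
    rw [hfw2, hfw.self_of_nhds]
    simp only [add_apply, smul_apply, smul_eq_mul, Finset.sum_add_distrib]
    rw [← Finset.mul_sum]
    ring
  have h1 := hP y hyΩ
  have h2 := mul_pos hε (hPv y hy)
  linarith

end strong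

end Nij
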