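import Pool.Agent.Nij.Step

/-!
# Linear algebra: every endomorphism with real spectrum is obtained
-/

open scoped ContDiff Topology
open Module

noncomputable section

namespace Nij

universe u

/-- realisability on the standard space of the right dimension -/
def PR {V : Type u} [AddCommGroup V] [Module ℝ V] (T : V →ₗ[ℝ] V) (y : V) : Prop :=
  Data (Fin (finrank ℝ V) → ℝ) V T y

section

variable {V : Type u} [AddCommGroup V] [Module ℝ V]

theorem PR.of_data {E : Type*} [NormedAddCommGroup E] [NormedSpace ℝ E] [FiniteDimensional ℝ E]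
    {T : V →ₗ[ℝ] V} {y : V} (h : Data E V T y) (hE : finrank ℝ E = finrank ℝ V) : PR T y :=
  h.transfer (ContinuousLinearEquiv.ofFinrankEq (by simp [hE]))

theorem PR.to_data {E : Type*} [NormedAddCommGroup E] [NormedSpace ℝ E] [FiniteDimensional ℝ E]
    {T : V →ₗ[ℝ] V} {y : V} (h : PR T y) (hE : finrank ℝ E = finrank ℝ V) : Data E V T y :=
  Data.transfer h (ContinuousLinearEquiv.ofFinrankEq (by simp [hE]))

theorem PR.step [FiniteDimensional ℝ V] {T : V →ₗ[ℝ] V} {v : V} {H : Submodule ℝ V} (hH : ∀ x, T x ∈ H) (hv : v ∉ H)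
    (hfin : finrank ℝ H + 1 = finrank ℝ V) (hpos : 0 < finrank ℝ H)
    (h : PR (T.restrict (fun x (_ : x ∈ H) => hH x)) ⟨T v, hH v⟩) : PR T v := by
  have h1 : Data (ℝ × (Fin (finrank ℝ H - 1) → ℝ)) H _ _ := h.to_data (by simp; omega)
  have h2 := h1.step
  let F : (H × ℝ) →ₗ[ℝ] V := H.subtype.coprod (LinearMap.toSpanSingleton ℝ V v)
  have hF : ∀ x : H, ∀ t : ℝ, F (x, t) = (x : V) + t • v := by
    intro x t; simp [F]
  have hinj : Function.Injective F := by
    rw [← LinearMap.ker_eq_bot, LinearMap.ker_eq_bot']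
    rintro ⟨x, t⟩ hxt
    rw [hF] at hxt
    have ht : t = 0 := by
      by_contra ht
      apply hv
      have : v = (-t⁻¹) • (x : V) := by
        have h3 : t • v = -(x : V) := by rw [eq_neg_iff_add_eq_zero, add_comm]; exact hxt
        rw [neg_smul, ← smul_neg, ← h3, smul_smul, inv_mul_cancel₀ ht, one_smul]
      rw [this]
      exact H.smul_mem _ x.2
    subst ht
    simp only [zero_smul, add_zero] at hxt
    ext
    · simpa using hxt
    · rfl
  let f : (H × ℝ) ≃ₗ[ℝ] V := LinearEquiv.ofInjectiveOfFinrankEq F hinj (by simp [hfin])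
  have hf : ∀ w, f w = F w := fun w => rfl
  have h3 : Data (ℂ × (Fin (finrank ℝ H - 1) → ℝ)) V T v := by
    refine h2.congrV f ?_ ?_
    · rintro ⟨x, t⟩
      rw [hf, hf, hF, extT_apply, hF, map_add, map_smul]
      simp
    · rw [hf, hF]; simp
  exact PR.of_data h3 (by simp; omega)

end

/-- `T` is annihilated by a product of real linear factors -/
def RealSpec {V : Type u} [AddCommGroup V] [Module ℝ V] (T : V →ₗ[ℝ] V) : Prop :=
  ∃ s : List ℝ, ((s.map fun c => (T - c • LinearMap.id : Module.End ℝ V)).prod : Module.End ℝ V) = 0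

section

variable {V : Type u} [AddCommGroup V] [Module ℝ V]

theorem RealSpec.restrict {T : V →ₗ[ℝ] V} (h : RealSpec T) {H : Submodule ℝ V}
    (hH : ∀ x ∈ H, T x ∈ H) : RealSpec (T.restrict hH) := by
  obtain ⟨s, hs⟩ := h
  refine ⟨s, ?_⟩
  have key : ∀ s : List ℝ, ∀ x : H,
      ((((s.map fun c => (T.restrict hH - c • LinearMap.id : Module.End ℝ H)).prod :
        Module.End ℝ H) x : H) : V) =
      ((s.map fun c => (T - c • LinearMap.id : Module.End ℝ V)).prod : Module.End ℝ V) x := by
    intro s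
    induction s with
    | nil => intro x; simp
    | cons c s ih =>
      intro x
      simp only [List.map_cons, List.prod_cons, Module.End.mul_apply, LinearMap.sub_apply,
        LinearMap.smul_apply, LinearMap.id_apply]
      rw [← ih x]
      simp
  ext x
  rw [key s x, hs]
  simp

theorem RealSpec.sub {T : V →ₗ[ℝ] V} (h : RealSpec T) (c : ℝ) :
    RealSpec (T - c • LinearMap.id) := by
  obtain ⟨s, hs⟩ := h
  refine ⟨s.map fun a => a - c, ?_⟩
  rw [List.map_map, ← hs]
  congr 2
  funext a
  simp only [Function.comp]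
  module

theorem RealSpec.exists_ker {T : V →ₗ[ℝ] V} (h : RealSpec T) [Nontrivial V] :
    ∃ c : ℝ, ∃ x : V, x ≠ 0 ∧ (T - c • LinearMap.id : V →ₗ[ℝ] V) x = 0 := by
  obtain ⟨s, hs⟩ := h
  by_contra hcon
  push Not at hcon
  have key : ∀ s : List ℝ, Function.Injective
      ((s.map fun c => (T - c • LinearMap.id : Module.End ℝ V)).prod : Module.End ℝ V) := by
    intro s
    induction s with
    | nil => intro x y hxy; simpa using hxy
    | cons c s ih =>
      simp only [List.map_cons, List.prod_cons]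
      refine Function.Injective.comp (g := (T - c • LinearMap.id : Module.End ℝ V)) ?_ ih
      rw [← LinearMap.ker_eq_bot, LinearMap.ker_eq_bot']
      intro x hx
      by_contra hne
      exact hcon c x hne hx
  obtain ⟨x, hx⟩ := exists_ne (0 : V)
  apply hx
  apply key s
  rw [hs]
  simp

end

theorem exists_chain {V : Type u} [AddCommGroup V] [Module ℝ V] [FiniteDimensional ℝ V]
    (N : Module.End ℝ V) (hN : ∃ x, x ≠ 0 ∧ N x = 0) :
    ∃ k : ℕ, ∃ v : V, ∃ l : V →ₗ[ℝ] ℝ, (N ^ (k + 1)) v = 0 ∧ (∀ x, l ((N ^ (k + 1)) x) = 0) ∧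
      l ((N ^ k) v) ≠ 0 := by
  classical
  have hex : ∃ k, LinearMap.ker (N ^ k) = LinearMap.ker (N ^ (k + 1)) := by
    obtain ⟨k, -, hk⟩ := Module.End.exists_ker_pow_eq_ker_pow_succ N
    exact ⟨k, hk⟩
  set k := Nat.find hex with hk
  have hk1 : LinearMap.ker (N ^ k) = LinearMap.ker (N ^ (k + 1)) := Nat.find_spec hex
  have hk0 : k ≠ 0 := by
    intro h0
    rw [h0] at hk1
    obtain ⟨x, hx, hNx⟩ := hN
    apply hx
    have : x ∈ LinearMap.ker (N ^ (0 + 1)) := by simpa using hNx
    rw [← hk1] at this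
    simpa using this
  obtain ⟨m, hm⟩ := Nat.exists_eq_succ_of_ne_zero hk0
  have hmin : LinearMap.ker (N ^ m) ≠ LinearMap.ker (N ^ (m + 1)) :=
    Nat.find_min hex (by omega)
  have hle : LinearMap.ker (N ^ m) ≤ LinearMap.ker (N ^ (m + 1)) := by
    intro x hx
    rw [LinearMap.mem_ker] at hx ⊢
    rw [pow_succ', Module.End.mul_apply, hx, map_zero]
  obtain ⟨v, hv1, hv2⟩ := SetLike.exists_of_lt (lt_of_le_of_ne hle hmin)
  rw [LinearMap.mem_ker] at hv1 hv2
  have hnot : (N ^ m) v ∉ LinearMap.range (N ^ (m + 1)) := by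
    rintro ⟨x, hx⟩
    apply hv2
    have h1 : x ∈ LinearMap.ker (N ^ (k + 1)) := by
      rw [LinearMap.mem_ker, hm, Nat.succ_eq_add_one, pow_succ', Module.End.mul_apply, hx,
        ← Module.End.mul_apply, ← pow_succ', hv1]
    rw [← hk1, LinearMap.mem_ker, hm, Nat.succ_eq_add_one] at h1
    rw [← hx, h1]
  obtain ⟨l, hl1, hl2⟩ := Submodule.exists_le_ker_of_notMem hnot
  refine ⟨m, v, l, hv1, ?_, ?_⟩
  · intro x
    exact hl2 ⟨x, rfl⟩
  · exact hl1

/-- Main induction. -/
theorem main_induction (n : ℕ) : ∀ (V : Type u) [AddCommGroup V] [Module ℝ V]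
    [FiniteDimensional ℝ V] (T : V →ₗ[ℝ] V), finrank ℝ V = n → RealSpec T →
    (0 < n → PR T 0) ∧ (∀ k : ℕ, ∀ v : V, ∀ l : V →ₗ[ℝ] ℝ,
      ((T : Module.End ℝ V) ^ (k + 1)) v = 0 → (∀ x, l (((T : Module.End ℝ V) ^ (k + 1)) x) = 0) →
      l (((T : Module.End ℝ V) ^ k) v) ≠ 0 → PR T v) := by
  induction n using Nat.strong_induction_on with
  | _ n ih =>
  -- the second part in dimension `n`
  have part2 : ∀ (V : Type u) [AddCommGroup V] [Module ℝ V]
    [FiniteDimensional ℝ V] (T : V →ₗ[ℝ] V), finrank ℝ V = n → RealSpec T →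
     (∀ k : ℕ, ∀ v : V, ∀ l : V →ₗ[ℝ] ℝ,
      ((T : Module.End ℝ V) ^ (k + 1)) v = 0 → (∀ x, l (((T : Module.End ℝ V) ^ (k + 1)) x) = 0) →
      l (((T : Module.End ℝ V) ^ k) v) ≠ 0 → PR T v) := by
    intro V _ _ _ T hn hT k v l h1 h2 h3
    let H : Submodule ℝ V := LinearMap.ker (l ∘ₗ ((T : Module.End ℝ V) ^ k))
    have hH : ∀ x, T x ∈ H := by
      intro x
      have := h2 x
      rw [pow_succ, Module.End.mul_apply] at this
      exact this
    have hv : v ∉ H := fun hv => h3 hv
    have hfin : finrank ℝ H + 1 = finrank ℝ V := by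
      have hne : (l ∘ₗ ((T : Module.End ℝ V) ^ k) : Module.Dual ℝ V) ≠ 0 := by
        intro h0
        apply h3
        exact congrArg (fun f : Module.Dual ℝ V => f v) h0
      exact Module.Dual.finrank_ker_add_one_of_ne_zero hne
    rcases Nat.eq_zero_or_pos (finrank ℝ H) with h0 | hpos
    · have hbot : H = ⊥ := Submodule.finrank_eq_zero.mp h0
      have hT0 : T = 0 := by
        ext x
        have := hH x
        rw [hbot, Submodule.mem_bot] at this
        simpa using this
      subst hT0
      exact Data.base (LinearEquiv.ofFinrankEq V _ (by simp))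
    · refine PR.step hH hv hfin hpos ?_
      have hR : RealSpec (T.restrict (fun x (_ : x ∈ H) => hH x)) := hT.restrict _
      obtain ⟨ih1, ih2⟩ := ih (finrank ℝ H) (by omega) H
        (T.restrict (fun x (_ : x ∈ H) => hH x)) rfl hR
      have hpow : ∀ j : ℕ, ∀ x : H,
          (((((T.restrict (fun x (_ : x ∈ H) => hH x)) : Module.End ℝ H) ^ j) x : H) : V) =
          ((T : Module.End ℝ V) ^ j) x := by
        intro j
        induction j with
        | zero => intro x; simp
        | succ j ihj =>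
          intro x
          rw [pow_succ', pow_succ', Module.End.mul_apply, Module.End.mul_apply, ← ihj x]
          rfl
      rcases k with _ | k
      · have hTv : (⟨T v, hH v⟩ : H) = 0 := by
          ext
          simpa using h1
        rw [hTv]
        exact ih1 hpos
      · refine ih2 k ⟨T v, hH v⟩ (l ∘ₗ H.subtype) ?_ ?_ ?_
        · ext
          rw [hpow]
          simp only [ZeroMemClass.coe_zero]
          rw [← Module.End.mul_apply, ← pow_succ]
          exact h1
        · intro x
          rw [LinearMap.comp_apply, Submodule.subtype_apply, hpow]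
          exact x.2
        · rw [LinearMap.comp_apply, Submodule.subtype_apply, hpow]
          simp only []
          rw [← Module.End.mul_apply, ← pow_succ]
          exact h3
  intro V _ _ _ T hn hT
  refine ⟨fun hpos => ?_, part2 V T hn hT⟩
  have : Nontrivial V := Module.nontrivial_of_finrank_pos (R := ℝ) (by omega)
  obtain ⟨c, hc⟩ := hT.exists_ker
  obtain ⟨k, v, l, h1, h2, h3⟩ := exists_chain (T - c • LinearMap.id : Module.End ℝ V) hc
  have h4 := part2 V (T - c • LinearMap.id) hn (hT.sub c) k v l h1 h2 h3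
  have h5 : PR (T - c • LinearMap.id) 0 := Data.forget h4
  have h6 : PR (T - c • LinearMap.id + c • LinearMap.id) 0 := Data.shift h5 c
  simpa using h6

end Nij
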