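import Pool.Agent.Nij.Hopf

/-!
# Maximum principle for imaginary parts of functions holomorphic with respect to a field `J`
-/

open scoped ContDiff Topology RealInnerProductSpace
open Metric

noncomputable section

namespace Nij

section pde

variable {E : Type*} [NormedAddCommGroup E] [NormedSpace ℝ E]

theorem pde_of_J {u w : E → ℝ} {J : E → E →L[ℝ] E} {x : E}
    (hu : ContDiffAt ℝ 2 u x) (hw : ContDiffAt ℝ 2 w x) (hJ : DifferentiableAt ℝ J x)
    (h1 : ∀ᶠ y in 𝓝 x, fderiv ℝ w y = (fderiv ℝ u y).comp (J y))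
    (h2 : ∀ᶠ y in 𝓝 x, (fderiv ℝ w y).comp (J y) = - fderiv ℝ u y) (e : E) :
    fderiv ℝ (fderiv ℝ u) x e e + fderiv ℝ (fderiv ℝ u) x (J x e) (J x e) +
      fderiv ℝ u x (fderiv ℝ J x (J x e) e + J x (fderiv ℝ J x e e)) = 0 := by
  have hu2 : DifferentiableAt ℝ (fderiv ℝ u) x :=
    (hu.fderiv_right (m := 1) (by norm_num)).differentiableAt (by simp)
  have hw2 : DifferentiableAt ℝ (fderiv ℝ w) x :=
    (hw.fderiv_right (m := 1) (by norm_num)).differentiableAt (by simp)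
  have hsymm : IsSymmSndFDerivAt ℝ w x :=
    hw.isSymmSndFDerivAt (by simp)
  have e1 : ∀ h, fderiv ℝ (fderiv ℝ w) x h e =
      fderiv ℝ (fderiv ℝ u) x h (J x e) + fderiv ℝ u x (fderiv ℝ J x h e) := by
    intro h
    have h3 : fderiv ℝ w =ᶠ[𝓝 x] fun y => (fderiv ℝ u y).comp (J y) := h1
    rw [h3.fderiv_eq, (hu2.hasFDerivAt.clm_comp hJ.hasFDerivAt).fderiv]
    simp
    ring
  have e2 : ∀ h, fderiv ℝ (fderiv ℝ w) x h (J x e) + fderiv ℝ w x (fderiv ℝ J x h e) =
      - fderiv ℝ (fderiv ℝ u) x h e := by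
    intro h
    have h3 : (fun y => (fderiv ℝ w y).comp (J y)) =ᶠ[𝓝 x] fun y => - fderiv ℝ u y := h2
    have h4 := h3.fderiv_eq (𝕜 := ℝ)
    rw [(hw2.hasFDerivAt.clm_comp hJ.hasFDerivAt).fderiv, fderiv_fun_neg] at h4
    have h5 := congrArg (fun T => T h e) h4
    simp at h5
    rw [← h5]
    ring
  have e3 := e1 (J x e)
  have e4 := e2 e
  have e5 : fderiv ℝ w x (fderiv ℝ J x e e) = fderiv ℝ u x (J x (fderiv ℝ J x e e)) := by
    rw [h1.self_of_nhds]; rfl
  have e6 := hsymm (J x e) e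
  rw [map_add]
  linarith

end pde

variable {E : Type*} [NormedAddCommGroup E] [InnerProductSpace ℝ E] [FiniteDimensional ℝ E]

/-- Strong maximum principle for `u` when `dw = du ∘ J` and `dw ∘ J = - du`. -/
theorem jmax {Ω : Set E} (hΩ : IsOpen Ω) {u w : E → ℝ} {J : E → E →L[ℝ] E}
    (hu : ContDiffOn ℝ 2 u Ω) (hw : ContDiffOn ℝ 2 w Ω) (hJ : ContDiffOn ℝ 1 J Ω)
    (h1 : ∀ y ∈ Ω, fderiv ℝ w y = (fderiv ℝ u y).comp (J y))
    (h2 : ∀ y ∈ Ω, (fderiv ℝ w y).comp (J y) = - fderiv ℝ u y)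
    {m : ℝ} (hm : ∀ x ∈ Ω, u x ≤ m) {x0 : E} (hx0 : x0 ∈ Ω) (h0 : u x0 = m) :
    ∀ᶠ x in 𝓝 x0, u x = m := by
  set N := Module.finrank ℝ E with hN
  let β : OrthonormalBasis (Fin N) ℝ E := stdOrthonormalBasis ℝ E
  have hcJ : ContinuousOn J Ω := hJ.continuousOn
  have hcJ' : ContinuousOn (fderiv ℝ J) Ω := hJ.continuousOn_fderiv_of_isOpen hΩ (by simp)
  let V : Fin N ⊕ Fin N → E → E := Sum.elim (fun i _ => β i) (fun i x => J x (β i))
  let b : E → E := fun x => ∑ i, (fderiv ℝ J x (J x (β i)) (β i) + J x (fderiv ℝ J x (β i) (β i)))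
  refine strong_max hΩ (V := V) (b := b) (fun x hx => hu.contDiffAt (hΩ.mem_nhds hx)) ?_ ?_ ?_ ?_
    hm hx0 h0
  · rintro (i | i)
    · exact continuousOn_const
    · exact hcJ.clm_apply continuousOn_const
  · refine continuousOn_finsetSum _ fun i _ => ?_
    refine ContinuousOn.add ?_ ?_
    · exact (hcJ'.clm_apply (hcJ.clm_apply continuousOn_const)).clm_apply continuousOn_const
    · exact hcJ.clm_apply ((hcJ'.clm_apply continuousOn_const).clm_apply continuousOn_const)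
  · intro x hx y
    rw [Fintype.sum_sum_type]
    have h3 : ∑ i, ⟪y, β i⟫ ^ 2 = ‖y‖ ^ 2 := by
      rw [← β.sum_sq_norm_inner_left y]
      refine Finset.sum_congr rfl fun i _ => ?_
      rw [Real.norm_eq_abs, sq_abs]
    have h4 : 0 ≤ ∑ i, ⟪y, J x (β i)⟫ ^ 2 := Finset.sum_nonneg fun i _ => sq_nonneg _
    simp only [V, Sum.elim_inl, Sum.elim_inr]
    rw [h3]
    linarith
  · intro x hx
    have hmem := hΩ.mem_nhds hx
    have key := fun e => pde_of_J (hu.contDiffAt hmem) (hw.contDiffAt hmem)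
      ((hJ.contDiffAt hmem).differentiableAt (by simp))
      (Filter.mem_of_superset hmem h1) (Filter.mem_of_superset hmem h2) e
    rw [Fintype.sum_sum_type]
    simp only [V, Sum.elim_inl, Sum.elim_inr, b, map_sum]
    rw [← Finset.sum_add_distrib, ← Finset.sum_add_distrib]
    rw [Finset.sum_congr rfl fun i _ => key (β i)]
    simp

end Nij
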