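import Pool.Agent.Nij.Bez
import Pool.Agent.Nij.JMax

/-!
# Local constancy of the maximal imaginary part
-/

open scoped ContDiff Topology Polynomial
open Polynomial

noncomputable section

namespace Nij

section big

variable {E : Type*} [NormedAddCommGroup E] [NormedSpace ℝ E] [FiniteDimensional ℝ E]

/-- complex characteristic polynomial -/
def chc (A : E →L[ℝ] E) : ℂ[X] := (chp A).map (algebraMap ℝ ℂ)

theorem chp_monic (A : E →L[ℝ] E) : (chp A).Monic := LinearMap.charpoly_monic _

theorem chp_natDegree (A : E →L[ℝ] E) : (chp A).natDegree = Module.finrank ℝ E :=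
  LinearMap.charpoly_natDegree _

theorem chc_monic (A : E →L[ℝ] E) : (chc A).Monic := (chp_monic A).map _

theorem chc_natDegree (A : E →L[ℝ] E) : (chc A).natDegree = Module.finrank ℝ E := by
  unfold chc
  rw [(chp_monic A).natDegree_map, chp_natDegree]

theorem contDiff_cv_chc (N : ℕ) : ContDiff ℝ ∞ fun A : E →L[ℝ] E => cv N (chc A) := by
  rw [contDiff_pi]
  intro j
  have h : (fun A : E →L[ℝ] E => cv N (chc A) j) = fun A => Complex.ofRealCLM ((chp A).coeff j) := by
    funext A
    simp [cv, chc]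
  rw [h]
  exact Complex.ofRealCLM.contDiff.comp (contDiff_chp_coeff _)

theorem big_identity {N : ℕ} (hN : Module.finrank ℝ E = N) {L : E → E →L[ℝ] E} {x : E}
    (hL : DifferentiableAt ℝ L x) (ht : ∀ v w, tors L x v w = 0) (v : E) :
    vp (fderiv ℝ (fun y => cv N (chc (L y))) x (L x v)) =
      X * vp (fderiv ℝ (fun y => cv N (chc (L y))) x v)
        + C ((tr (fderiv ℝ L x v) : ℝ) : ℂ) * mp (cv N (chc (L x))) := by
  have hcj : ∀ j, DifferentiableAt ℝ (fun y => (chp (L y)).coeff j) x := fun j =>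
    ((contDiff_chp_coeff j).differentiable (by simp) (L x)).comp x hL
  let dc : ℕ → E → ℝ := fun j u => fderiv ℝ (fun y => (chp (L y)).coeff j) x u
  let pr : E → ℝ[X] := fun u => ∑ j ∈ Finset.range (N + 1), C (dc j u) * X ^ j
  have hprc : ∀ u j, (pr u).coeff j = if j < N + 1 then dc j u else 0 := by
    intro u j
    simp only [pr]
    rw [finsetSum_coeff]
    simp only [coeff_C_mul, coeff_X_pow]
    split_ifs with h
    · rw [Finset.sum_eq_single j]
      · simp
      · intro i _ hi
        simp [Ne.symm hi]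
      · intro h'; exact absurd (Finset.mem_range.mpr h) h'
    · apply Finset.sum_eq_zero
      intro i hi
      rw [Finset.mem_range] at hi
      have : j ≠ i := by omega
      simp [this]
  have hdcN : ∀ u, dc N u = 0 := by
    intro u
    have : (fun y => (chp (L y)).coeff N) = fun _ => 1 := by
      funext y
      have := (chp_monic (L y)).coeff_natDegree
      rwa [chp_natDegree, hN] at this
    simp [dc, this]
  have hvp : ∀ u, vp (fderiv ℝ (fun y => cv N (chc (L y))) x u) = (pr u).map (algebraMap ℝ ℂ) := by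
    intro u
    ext j
    rw [coeff_map, hprc, coeff_vp]
    by_cases hj : j < N
    · rw [dif_pos hj, if_pos (by omega)]
      have h1 : HasFDerivAt (fun y => cv N (chc (L y)) ⟨j, hj⟩)
          (Complex.ofRealCLM.comp (fderiv ℝ (fun y => (chp (L y)).coeff j) x)) x := by
        have h2 : (fun y => cv N (chc (L y)) ⟨j, hj⟩) =
            fun y => Complex.ofRealCLM ((chp (L y)).coeff j) := by
          funext y; simp [cv, chc]
        rw [h2]
        exact Complex.ofRealCLM.hasFDerivAt.comp x (hcj j).hasFDerivAt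
      have h3 : DifferentiableAt ℝ (fun y => cv N (chc (L y))) x :=
        ((contDiff_cv_chc N).differentiable (by simp) (L x)).comp x hL
      have h4 := hasFDerivAt_pi'.mp h3.hasFDerivAt ⟨j, hj⟩
      have h5 := congrArg (fun T => T u) (h4.unique h1)
      simpa using h5
    · rw [dif_neg hj]
      split_ifs with h
      · have : j = N := by omega
        rw [this, hdcN]; simp
      · simp
  have heval : ∀ z : ℝ, ∀ u, (pr u).eval z = fderiv ℝ (fun y => (chp (L y)).eval z) x u := by
    intro z u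
    have h1 : (fun y => (chp (L y)).eval z) = fun y =>
        ∑ j ∈ Finset.range (N + 1), (chp (L y)).coeff j * z ^ j := by
      funext y
      exact eval_eq_sum_range' (by rw [chp_natDegree, hN]; omega) z
    rw [h1]
    have h2 : HasFDerivAt (fun y => ∑ j ∈ Finset.range (N + 1), (chp (L y)).coeff j * z ^ j)
        (∑ j ∈ Finset.range (N + 1), (z ^ j) • fderiv ℝ (fun y => (chp (L y)).coeff j) x) x :=
      HasFDerivAt.fun_sum fun j _ => (hcj j).hasFDerivAt.mul_const (z ^ j)
    rw [h2.fderiv]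
    simp only [pr, eval_finsetSum, eval_mul, eval_C, eval_pow, eval_X, sum_apply, smul_apply,
      smul_eq_mul, dc]
    refine Finset.sum_congr rfl fun j _ => ?_
    ring
  have hreal : pr (L x v) = X * pr v + C (tr (fderiv ℝ L x v)) * chp (L x) := by
    apply eq_of_infinite_eval_eq
    have hfin : {z : ℝ | (chp (L x)).eval z = 0}.Finite := by
      have := (chp (L x)).rootSet_finite ℝ
      refine (Multiset.finite_toSet (chp (L x)).roots).subset ?_
      intro z hz
      exact (mem_roots (chp_monic (L x)).ne_zero).mpr hz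
    refine (hfin.infinite_compl).mono ?_
    intro z hz
    have hz' : (chp (L x)).eval z ≠ 0 := hz
    change (pr (L x v)).eval z = (X * pr v + C (tr (fderiv ℝ L x v)) * chp (L x)).eval z
    rw [eval_add, eval_mul, eval_X, eval_mul, eval_C, heval, heval, fderiv_eval_chp hL ht hz']
    ring
  rw [hvp, hvp, hreal, mp_cv (chc_monic _) (by rw [chc_natDegree, hN])]
  rw [Polynomial.map_add, Polynomial.map_mul, Polynomial.map_mul, map_X, map_C]
  rfl

end big

section roots

theorem sum_im_lt {M : ℝ} (s : Multiset ℂ) (h : ∀ z ∈ s, z.im < M) (hs : s ≠ 0) :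
    s.sum.im < s.card * M := by
  induction s using Multiset.induction with
  | empty => exact absurd rfl hs
  | cons z s ih =>
    rcases eq_or_ne s 0 with h0 | h0
    · subst h0
      simpa using h z (by simp)
    · have h1 := ih (fun w hw => h w (Multiset.mem_cons_of_mem hw)) h0
      have h2 := h z (Multiset.mem_cons_self z s)
      rw [Multiset.sum_cons, Multiset.card_cons, Complex.add_im]
      push_cast
      linarith

theorem sum_im_le {M : ℝ} (s : Multiset ℂ) (h : ∀ z ∈ s, z.im ≤ M) :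
    s.sum.im ≤ s.card * M := by
  induction s using Multiset.induction with
  | empty => simp
  | cons z s ih =>
    have h1 := ih (fun w hw => h w (Multiset.mem_cons_of_mem hw))
    have h2 := h z (Multiset.mem_cons_self z s)
    rw [Multiset.sum_cons, Multiset.card_cons, Complex.add_im]
    push_cast
    linarith

theorem sum_roots_mp {k : ℕ} (a : Fin (k + 1) → ℂ) : (mp a).roots.sum = - a (Fin.last k) := by
  have h1 := (IsAlgClosed.splits (mp a)).nextCoeff_eq_neg_sum_roots_of_monic (mp_monic a)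
  have h2 : (mp a).nextCoeff = a (Fin.last k) := by
    rw [nextCoeff_of_natDegree_pos (by rw [mp_natDegree]; omega), mp_natDegree]
    unfold mp
    rw [coeff_add, coeff_X_pow, coeff_vp, if_neg (by omega), dif_pos (by omega), zero_add]
    rfl
  rw [h2] at h1
  rw [h1, neg_neg]

theorem card_roots_mp {k : ℕ} (a : Fin k → ℂ) : (mp a).roots.card = k := by
  rw [← (IsAlgClosed.splits (mp a)).natDegree_eq_card_roots, mp_natDegree]

end roots

theorem nat_le_inf (r : ℕ) : ((r : ℕ) : WithTop ℕ∞) ≤ ∞ := by exact_mod_cast le_top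

section coeffs

variable {G : Type*} [NormedAddCommGroup G] [NormedSpace ℝ G]

theorem contDiffAt_coeff_vp {k : ℕ} {p : G → Fin k → ℂ} {x : G} {r : ℕ}
    (hp : ContDiffAt ℝ r p x) (j : ℕ) : ContDiffAt ℝ r (fun y => (vp (p y)).coeff j) x := by
  have h : ContDiff ℝ r (linC k j) := ((linC k j).contDiff (n := r)).restrict_scalars ℝ
  exact h.contDiffAt.comp x hp

theorem contDiffAt_coeff_mp {k : ℕ} {p : G → Fin k → ℂ} {x : G} {r : ℕ}
    (hp : ContDiffAt ℝ r p x) (j : ℕ) : ContDiffAt ℝ r (fun y => (mp (p y)).coeff j) x := by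
  have h := contDiffAt_const (c := (X ^ k : ℂ[X]).coeff j) |>.add (contDiffAt_coeff_vp hp j)
  unfold mp
  simpa only [coeff_add] using h

theorem contDiffAt_coeff_G {k : ℕ} {p a : G → Fin k → ℂ} {x : G} {r : ℕ}
    (hp : ContDiffAt ℝ r p x) (ha : ContDiffAt ℝ r a x) (j : ℕ) :
    ContDiffAt ℝ r (fun y => (C Complex.I * vp (p y) * mp (a y)).coeff j) x := by
  have h : (fun y => (C Complex.I * vp (p y) * mp (a y)).coeff j) = fun y =>
      Complex.I * ∑ q ∈ Finset.HasAntidiagonal.antidiagonal j,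
        (vp (p y)).coeff q.1 * (mp (a y)).coeff q.2 := by
    funext y
    rw [mul_assoc, coeff_C_mul, coeff_mul]
  rw [h]
  refine contDiffAt_const.mul ?_
  refine ContDiffAt.sum fun q _ => ?_
  exact (contDiffAt_coeff_vp hp q.1).mul (contDiffAt_coeff_mp ha q.2)

end coeffs

section localthm

variable {E : Type*} [NormedAddCommGroup E] [InnerProductSpace ℝ E] [FiniteDimensional ℝ E]

theorem local_const {L : E → E →L[ℝ] E} (hL : ContDiff ℝ ∞ L)
    (ht : ∀ x v w, tors L x v w = 0) {M : ℝ} (hM : 0 < M)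
    (hmax : ∀ x z, (chc (L x)).IsRoot z → z.im ≤ M) {x0 : E} {z0 : ℂ}
    (hz0 : (chc (L x0)).IsRoot z0) (hz0M : z0.im = M) :
    ∀ᶠ x in 𝓝 x0, ∃ z, (chc (L x)).IsRoot z ∧ z.im = M := by
  have hLd : Differentiable ℝ L := hL.differentiable (by simp)
  -- factorisation at `x0`
  have hP0 : (chc (L x0)) ≠ 0 := (chc_monic _).ne_zero
  obtain ⟨B0, hB0, hnd⟩ := exists_eq_pow_rootMultiplicity_mul_and_not_dvd (chc (L x0)) hP0 z0
  have hmu : 0 < (chc (L x0)).rootMultiplicity z0 := (rootMultiplicity_pos hP0).mpr hz0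
  obtain ⟨k, hk⟩ : ∃ k, (chc (L x0)).rootMultiplicity z0 = k + 1 :=
    ⟨(chc (L x0)).rootMultiplicity z0 - 1, by omega⟩
  rw [hk] at hB0
  have hA0m : ((X - C z0) ^ (k + 1) : ℂ[X]).Monic := (monic_X_sub_C z0).pow _
  have hB0m : B0.Monic := by
    apply hA0m.of_mul_monic_left
    rw [← hB0]; exact chc_monic _
  set m := B0.natDegree with hm
  have hA0d : ((X - C z0) ^ (k + 1) : ℂ[X]).natDegree = k + 1 := by
    rw [natDegree_pow, natDegree_X_sub_C, mul_one]
  have hfin : Module.finrank ℝ E = k + 1 + m := by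
    rw [← chc_natDegree (L x0), hB0, hA0m.natDegree_mul hB0m, hA0d]
  let a0 : Fin (k + 1) → ℂ := cv (k + 1) ((X - C z0) ^ (k + 1))
  let b0 : Fin m → ℂ := cv m B0
  have ha0 : mp a0 = (X - C z0) ^ (k + 1) := mp_cv hA0m hA0d
  have hb0 : mp b0 = B0 := mp_cv hB0m rfl
  have hcop0 : IsCoprime (mp a0) (mp b0) := by
    rw [ha0, hb0]
    exact ((irreducible_X_sub_C z0).coprime_iff_not_dvd.mpr hnd).pow_left
  obtain ⟨ψ, hψs, hψ0, hψr⟩ := exists_factor a0 b0 hcop0
  let c : E → Fin (k + 1 + m) → ℂ := fun y => cv (k + 1 + m) (chc (L y))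
  have hcs : ContDiff ℝ ∞ c := (contDiff_cv_chc _).comp hL
  have hc0 : c x0 = mulm (k + 1) m (a0, b0) := by
    simp only [c, mulm, ha0, hb0, ← hB0]
  have hab : ContDiffAt ℝ (3 : ℕ) (fun y => ψ (c y)) x0 := by
    have h1 : ContDiffAt ℝ (3 : ℕ) ψ (c x0) := by
      rw [hc0]
      exact (hψs.restrict_scalars ℝ).of_le (nat_le_inf 3)
    exact h1.comp x0 (hcs.contDiffAt.of_le (nat_le_inf 3))
  let a : E → Fin (k + 1) → ℂ := fun y => (ψ (c y)).1
  let b : E → Fin m → ℂ := fun y => (ψ (c y)).2
  have ha : ContDiffAt ℝ (3 : ℕ) a x0 := contDiffAt_fst.comp x0 hab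
  have hb : ContDiffAt ℝ (3 : ℕ) b x0 := contDiffAt_snd.comp x0 hab
  have hax0 : a x0 = a0 := by simp only [a, hc0, hψ0]
  have hbx0 : b x0 = b0 := by simp only [b, hc0, hψ0]
  -- factorisation near `x0`
  have hfac : ∀ᶠ y in 𝓝 x0, mp (a y) * mp (b y) = chc (L y) := by
    have h1 : ∀ᶠ y in 𝓝 x0, mulm (k + 1) m (ψ (c y)) = c y := by
      rw [← hc0] at hψr
      exact hcs.continuous.continuousAt.eventually hψr
    filter_upwards [h1] with y hy
    have h2 : mp (c y) = chc (L y) := mp_cv (chc_monic _) (by rw [chc_natDegree, hfin])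
    rw [← h2, ← hy]
    symm
    unfold mulm
    refine mp_cv ((mp_monic _).mul (mp_monic _)) ?_
    rw [(mp_monic _).natDegree_mul (mp_monic _), mp_natDegree, mp_natDegree]
  have hcop : ∀ᶠ y in 𝓝 x0, IsCoprime (mp (a y)) (mp (b y)) := by
    obtain ⟨p, q, -, -, hpq⟩ := bezout_smooth (by omega) ha hb (by rw [hax0, hbx0]; exact hcop0)
    filter_upwards [hpq] with y hy
    refine ⟨vp (q y), vp (p y), ?_⟩
    rw [← hy]; ring
  -- Bezout with the conjugate polynomial
  let ab : E → Fin (k + 1) → ℂ := fun y i => starRingEnd ℂ (a y i)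
  have hab' : ContDiffAt ℝ (3 : ℕ) ab x0 := by
    rw [contDiffAt_pi]
    intro i
    have h1 : ContDiffAt ℝ (3 : ℕ) (fun y => a y i) x0 := (contDiffAt_pi.mp ha) i
    exact (Complex.conjCLE.contDiff.contDiffAt).comp x0 h1
  have hcopab : IsCoprime (mp (a x0)) (mp (ab x0)) := by
    have h1 : mp (ab x0) = (mp (a x0)).map (starRingEnd ℂ) := by
      ext j
      rw [coeff_map]
      unfold mp
      rw [coeff_add, coeff_add, coeff_X_pow, coeff_vp, coeff_vp]
      split_ifs <;> simp [ab]
    rw [h1, hax0, ha0, Polynomial.map_pow, Polynomial.map_sub, map_X, map_C]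
    apply IsCoprime.pow
    apply isCoprime_X_sub_C_of_isUnit_sub
    rw [isUnit_iff_ne_zero, sub_ne_zero]
    intro h
    have := congrArg Complex.im h
    rw [Complex.conj_im, hz0M] at this
    linarith
  obtain ⟨p, q, hp, hq, hpq⟩ := bezout_smooth (by omega) ha hab' hcopab
  let J : E → E →L[ℝ] E := fun y => ∑ j ∈ Finset.range (2 * k + 2),
    (2 * ((C Complex.I * vp (p y) * mp (ab y)).coeff j).re) • (L y ^ j)
  have hJ : ContDiffAt ℝ (3 : ℕ) J x0 := by
    refine ContDiffAt.sum fun j _ => ?_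
    have h1 : ContDiffAt ℝ (3 : ℕ)
        (fun y => 2 * ((C Complex.I * vp (p y) * mp (ab y)).coeff j).re) x0 := by
      refine contDiffAt_const.mul ?_
      exact (Complex.reCLM.contDiff.contDiffAt).comp x0 (contDiffAt_coeff_G hp hab' j)
    have h2 : ContDiffAt ℝ (3 : ℕ) (fun y => L y ^ j) x0 :=
      (hL.contDiffAt.of_le (nat_le_inf 3)).pow j
    exact h1.smul h2
  -- a good open set
  have hgood := ((ha.eventually (by simp)).and (hb.eventually (by simp))).and
    ((hJ.eventually (by simp)).and (hfac.and (hcop.and hpq)))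
  obtain ⟨Ω, hΩsub, hΩo, hx0Ω⟩ := mem_nhds_iff.mp hgood
  let u : E → ℝ := fun y => (- a y (Fin.last k)).im
  let w : E → ℝ := fun y => (- a y (Fin.last k)).re
  -- derivative of the sum of the roots
  have key : ∀ y ∈ Ω, ∃ dg : E →L[ℝ] ℂ, HasFDerivAt (fun y => - a y (Fin.last k)) dg y ∧
      ∀ v, dg (J y v) = Complex.I * dg v := by
    intro y hy
    obtain ⟨⟨hay, hby⟩, hJy, hfacy, hcopy, hpqy⟩ := hΩsub hy
    have hady : DifferentiableAt ℝ a y := hay.differentiableAt (by simp)
    have hbdy : DifferentiableAt ℝ b y := hby.differentiableAt (by simp)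
    have hce : c =ᶠ[𝓝 y] fun y' => mulm (k + 1) m (a y', b y') := by
      filter_upwards [hΩo.mem_nhds hy] with y' hy'
      obtain ⟨-, -, hfacy', -⟩ := hΩsub hy'
      simp only [c, mulm, hfacy']
    have hcd : ∀ v, fderiv ℝ c y v = cv (k + 1 + m)
        (vp (fderiv ℝ a y v) * mp (b y) + mp (a y) * vp (fderiv ℝ b y v)) := by
      intro v
      have h1 : HasFDerivAt (mulm (k + 1) m)
          ((LinearMap.toContinuousLinearMap (syl (k + 1) m (mp (a y)) (mp (b y)))).restrictScalars ℝ)
          (a y, b y) := (mulm_hasStrictFDerivAt (a y, b y)).hasFDerivAt.restrictScalars ℝ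
      have h2 := h1.comp y (hady.hasFDerivAt.prodMk hbdy.hasFDerivAt)
      rw [hce.fderiv_eq]
      have h3 : fderiv ℝ (fun y' => mulm (k + 1) m (a y', b y')) y = _ := h2.fderiv
      rw [h3]
      rfl
    have hvp : ∀ v, vp (fderiv ℝ c y v) =
        vp (fderiv ℝ a y v) * mp (b y) + mp (a y) * vp (fderiv ℝ b y v) := by
      intro v
      rw [hcd]
      apply vp_cv
      refine lt_of_le_of_lt (degree_add_le _ _) ?_
      rw [degree_mul, degree_mul, mp_degree, mp_degree, Nat.cast_add (k + 1) m]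
      apply max_lt
      · exact WithBot.add_lt_add_right (by simp) (degree_vp_lt _)
      · exact WithBot.add_lt_add_left (WithBot.natCast_ne_bot _) (degree_vp_lt _)
    have hfact : ∀ v, vp (fderiv ℝ a y (L y v)) =
        X * vp (fderiv ℝ a y v) + C (- (fderiv ℝ a y v) (Fin.last k)) * mp (a y) := by
      intro v
      refine factor_identity (a y) (b y) hcopy _ _ (fderiv ℝ b y v) (fderiv ℝ b y (L y v))
        ((tr (fderiv ℝ L y v) : ℝ) : ℂ) ?_
      have h1 := big_identity hfin (hLd y) (ht y) v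
      have h2 : mp (cv (k + 1 + m) (chc (L y))) = mp (a y) * mp (b y) := by
        rw [hfacy]
        exact mp_cv (chc_monic _) (by rw [chc_natDegree, hfin])
      rw [h2] at h1
      rw [← hvp, ← hvp]
      exact h1
    let dg : E →L[ℝ] ℂ := -((ContinuousLinearMap.proj (Fin.last k)).comp (fderiv ℝ a y))
    have hdgv : ∀ v, dg v = - (fderiv ℝ a y v) (Fin.last k) := fun v => rfl
    refine ⟨dg, ?_, ?_⟩
    · have h1 : HasFDerivAt (fun y => a y (Fin.last k))
          ((ContinuousLinearMap.proj (Fin.last k)).comp (fderiv ℝ a y)) y :=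
        (hasFDerivAt_pi'.mp hady.hasFDerivAt) (Fin.last k)
      exact h1.neg
    · intro v
      have h1 : aeval (TT ((L y : E →L[ℝ] E) : E →ₗ[ℝ] E)) (mp (a y)) (dg : E →ₗ[ℝ] ℂ) = 0 :=
        aeval_factor ((L y : E →L[ℝ] E) : E →ₗ[ℝ] E) (a y)
          ((fderiv ℝ a y : E →L[ℝ] (Fin (k + 1) → ℂ)) : E →ₗ[ℝ] (Fin (k + 1) → ℂ))
          (dg : E →ₗ[ℝ] ℂ) hfact
      have h2 := aeval_real_part ((L y : E →L[ℝ] E) : E →ₗ[ℝ] E) (a y) (p y) (q y) hpqy
        (dg : E →ₗ[ℝ] ℂ) h1 v
      have h3 : J y v = (∑ j ∈ Finset.range (2 * k + 2),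
          (2 * ((C Complex.I * vp (p y) * mp (fun i => starRingEnd ℂ (a y i))).coeff j).re) •
            ((((L y : E →L[ℝ] E) : E →ₗ[ℝ] E) : Module.End ℝ E) ^ j)) v := by
        simp only [J, sum_apply, LinearMap.sum_apply, smul_apply,
          LinearMap.smul_apply, ab]
        refine Finset.sum_congr rfl fun j _ => ?_
        congr 1
        have h4 : ∀ j : ℕ, ∀ v, (L y ^ j) v =
            ((((L y : E →L[ℝ] E) : E →ₗ[ℝ] E) : Module.End ℝ E) ^ j) v := by
          intro j
          induction j with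
          | zero => intro v; simp
          | succ j ih =>
            intro v
            rw [pow_succ, pow_succ, mul_apply_eq_comp, Module.End.mul_apply, ih]
            rfl
        exact h4 j v
      rw [h3]
      exact h2
  have hroot : ∀ y ∈ Ω, ∀ z ∈ (mp (a y)).roots, (chc (L y)).IsRoot z := by
    intro y hy z hz
    obtain ⟨-, -, hfacy, -⟩ := hΩsub hy
    rw [← hfacy]
    have h1 : (mp (a y)).IsRoot z := (mem_roots'.mp hz).2
    rw [IsRoot.def, eval_mul, h1, zero_mul]
  have hule : ∀ y ∈ Ω, u y ≤ (k + 1 : ℕ) * M := by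
    intro y hy
    have h1 := sum_im_le (mp (a y)).roots (fun z hz => hmax y z (hroot y hy z hz))
    rw [sum_roots_mp, card_roots_mp] at h1
    exact h1
  have hux0 : u x0 = (k + 1 : ℕ) * M := by
    have h1 := sum_roots_mp (a x0)
    have h2 : u x0 = ((mp (a x0)).roots.sum).im := by rw [h1]
    rw [h2, hax0, ha0, roots_pow, roots_X_sub_C, Multiset.sum_nsmul, Multiset.sum_singleton,
      nsmul_eq_mul, Complex.mul_im]
    simp [hz0M]
  have hmaxp := jmax hΩo (u := u) (w := w) (J := J) ?_ ?_ ?_ ?_ ?_ hule hx0Ω hux0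
  · filter_upwards [hmaxp, hΩo.mem_nhds hx0Ω] with y hy hyΩ
    by_contra hcon
    push Not at hcon
    have h1 : ∀ z ∈ (mp (a y)).roots, z.im < M := fun z hz =>
      lt_of_le_of_ne (hmax y z (hroot y hyΩ z hz)) (hcon z (hroot y hyΩ z hz))
    have h2 := sum_im_lt (mp (a y)).roots h1 (by
      intro h0
      have := card_roots_mp (a y)
      rw [h0] at this
      simp at this)
    rw [sum_roots_mp, card_roots_mp] at h2
    have h3 : u y = (- a y (Fin.last k)).im := rfl
    rw [← h3, hy] at h2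
    exact lt_irrefl _ h2
  · intro y hy
    obtain ⟨⟨hay, -⟩, -⟩ := hΩsub hy
    have h1 : ContDiffAt ℝ (3 : ℕ) (fun y => a y (Fin.last k)) y := (contDiffAt_pi.mp hay) _
    have h2 : ContDiffAt ℝ (3 : ℕ) u y :=
      (Complex.imCLM.contDiff.contDiffAt).comp y h1.neg
    exact (h2.of_le (by norm_num)).contDiffWithinAt
  · intro y hy
    obtain ⟨⟨hay, -⟩, -⟩ := hΩsub hy
    have h1 : ContDiffAt ℝ (3 : ℕ) (fun y => a y (Fin.last k)) y := (contDiffAt_pi.mp hay) _
    have h2 : ContDiffAt ℝ (3 : ℕ) w y :=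
      (Complex.reCLM.contDiff.contDiffAt).comp y h1.neg
    exact (h2.of_le (by norm_num)).contDiffWithinAt
  · intro y hy
    obtain ⟨-, hJy, -⟩ := hΩsub hy
    exact (hJy.of_le (by norm_num)).contDiffWithinAt
  · intro y hy
    obtain ⟨dg, hdg, hdgJ⟩ := key y hy
    have hu' : HasFDerivAt u (Complex.imCLM.comp dg) y := Complex.imCLM.hasFDerivAt.comp y hdg
    have hw' : HasFDerivAt w (Complex.reCLM.comp dg) y := Complex.reCLM.hasFDerivAt.comp y hdg
    rw [hu'.fderiv, hw'.fderiv]
    ext v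
    simp only [ContinuousLinearMap.comp_apply, hdgJ]
    simp
  · intro y hy
    obtain ⟨dg, hdg, hdgJ⟩ := key y hy
    have hu' : HasFDerivAt u (Complex.imCLM.comp dg) y := Complex.imCLM.hasFDerivAt.comp y hdg
    have hw' : HasFDerivAt w (Complex.reCLM.comp dg) y := Complex.reCLM.hasFDerivAt.comp y hdg
    rw [hu'.fderiv, hw'.fderiv]
    ext v
    simp only [ContinuousLinearMap.comp_apply, hdgJ, neg_apply]
    simp

end localthm

end Nij
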