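import Pool.Agent.Nij.Induct

/-!
# Sufficiency: matrices with real spectrum
-/

open scoped ContDiff Topology Polynomial
open Module

noncomputable section

namespace Nij

/-- The complexification of a real matrix. -/
def cx {n : ℕ} (A : Matrix (Fin n) (Fin n) ℝ) : Matrix (Fin n) (Fin n) ℂ :=
  A.map (algebraMap ℝ ℂ)

theorem cx_charpoly {n : ℕ} (A : Matrix (Fin n) (Fin n) ℝ) :
    (cx A).charpoly = A.charpoly.map (algebraMap ℝ ℂ) := Matrix.charpoly_map A _

theorem mem_spectrum_cx {n : ℕ} (A : Matrix (Fin n) (Fin n) ℝ) (z : ℂ) :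
    z ∈ spectrum ℂ (cx A) ↔ (A.charpoly.map (algebraMap ℝ ℂ)).IsRoot z := by
  rw [← cx_charpoly]
  exact Matrix.mem_spectrum_iff_isRoot_charpoly

theorem realSpec_of_real {n : ℕ} (A : Matrix (Fin n) (Fin n) ℝ)
    (hA : ∀ z ∈ spectrum ℂ (cx A), z.im = 0) : RealSpec (Matrix.toLin' A) := by
  have hs : A.charpoly.Splits := by
    refine Polynomial.Splits.of_splits_map (algebraMap ℝ ℂ) (IsAlgClosed.splits _) ?_
    intro a ha
    have h1 : (A.charpoly.map (algebraMap ℝ ℂ)).IsRoot a := (Polynomial.mem_roots'.mp ha).2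
    have h2 := hA a ((mem_spectrum_cx A a).mpr h1)
    exact ⟨a.re, by apply Complex.ext <;> simp [h2]⟩
  refine ⟨A.charpoly.roots.toList, ?_⟩
  have h1 := hs.eq_prod_roots_of_monic A.charpoly_monic
  have h2 : A.charpoly = (A.charpoly.roots.toList.map fun c => Polynomial.X - Polynomial.C c).prod := by
    conv_lhs => rw [h1]
    conv_lhs => rw [← Multiset.coe_toList A.charpoly.roots]
    rw [Multiset.map_coe, Multiset.prod_coe]
  have h3 : Polynomial.aeval (Matrix.toLin' A) A.charpoly = 0 := by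
    have := LinearMap.aeval_self_charpoly (Matrix.toLin' A)
    rwa [Matrix.charpoly_toLin'] at this
  rw [h2, map_list_prod, List.map_map] at h3
  rw [← h3]
  congr 2
  funext c
  simp only [Function.comp, map_sub, Polynomial.aeval_X, Polynomial.aeval_C]
  rfl

theorem suff {n : ℕ} (hn : 0 < n) (A : Matrix (Fin n) (Fin n) ℝ)
    (hA : ∀ z ∈ spectrum ℂ (cx A), z.im = 0) :
    ∃ L : (Fin n → ℝ) → (Fin n → ℝ) →L[ℝ] (Fin n → ℝ), ContDiff ℝ ∞ L ∧ HasCompactSupport L ∧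
      (∀ p v w, tors L p v w = 0) ∧ ∃ x₀ : Fin n → ℝ, ∃ r : ℝ, 0 < r ∧
      ∀ x ∈ Metric.ball x₀ r, ∃ g : (Fin n → ℝ) ≃ₗ[ℝ] (Fin n → ℝ),
        ∀ v, L x (g v) = g (Matrix.toLin' A v) := by
  have h := (main_induction n (Fin n → ℝ) (Matrix.toLin' A) (by simp)
    (realSpec_of_real A hA)).1 hn
  have h2 : Data (Fin n → ℝ) (Fin n → ℝ) (Matrix.toLin' A) 0 := h.to_data (by simp)
  obtain ⟨K, Y, hKY, x₀, hx⟩ := h2
  obtain ⟨r, hr, hball⟩ := Metric.eventually_nhds_iff_ball.mp hx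
  refine ⟨K, hKY.smoothK, hKY.suppK, hKY.tors, x₀, r, hr, ?_⟩
  intro x hx
  obtain ⟨g, hg, -⟩ := hball x hx
  exact ⟨g, hg⟩

end Nij
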