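import Pool.Agent.Nij.Basic

/-!
# The torsion through Lie brackets
-/

open scoped ContDiff Topology
open VectorField

noncomputable section

namespace Nij

variable {E : Type*} [NormedAddCommGroup E] [NormedSpace ℝ E]

theorem torsion_eq {L : E → E →L[ℝ] E} {V W : E → E} {x : E} (hL : DifferentiableAt ℝ L x)
    (hV : DifferentiableAt ℝ V x) (hW : DifferentiableAt ℝ W x) :
    lieBracket ℝ (fun y => L y (V y)) (fun y => L y (W y)) x
      - L x (lieBracket ℝ (fun y => L y (V y)) W x + lieBracket ℝ V (fun y => L y (W y)) x)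
      + L x (L x (lieBracket ℝ V W x)) = tors L x (V x) (W x) := by
  have hLV : HasFDerivAt (fun y => L y (V y)) _ x := hL.hasFDerivAt.clm_apply hV.hasFDerivAt
  have hLW : HasFDerivAt (fun y => L y (W y)) _ x := hL.hasFDerivAt.clm_apply hW.hasFDerivAt
  unfold lieBracket tors
  rw [hLV.fderiv, hLW.fderiv]
  simp only [add_apply, ContinuousLinearMap.comp_apply,
    ContinuousLinearMap.flip_apply, map_sub, map_add]
  abel

end Nij
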