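import Pool.Agent.Nij.Global
import Pool.Agent.Nij.Suff
import Pool.Agent.Nij.Torsion

/-!
# Necessity on the coordinate space
-/

open scoped ContDiff Topology Polynomial
open Polynomial

noncomputable section

namespace Nij

theorem tors_transfer {E E' : Type*} [NormedAddCommGroup E] [NormedSpace ℝ E]
    [NormedAddCommGroup E'] [NormedSpace ℝ E'] (e : E ≃L[ℝ] E') {K : E → E →L[ℝ] E}
    (hKd : Differentiable ℝ K) (ht : ∀ p v w, tors K p v w = 0) (p v w : E') :
    tors (fun x => (e : E →L[ℝ] E').comp ((K (e.symm x)).comp (e.symm : E' →L[ℝ] E))) p v w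
      = 0 := by
  refine tors_lift (κ := fun x => K (e.symm x)) (φ := fun _ => (e.symm : E' →L[ℝ] E))
      (ι := fun _ => (e : E →L[ℝ] E')) (z := p) ?_ ?_ ?_ ?_ ?_ ?_ (fderiv ℝ K (e.symm p)) ?_ ?_ v w
  · exact (hKd _).comp p e.symm.differentiableAt
  · exact differentiableAt_const _
  · exact differentiableAt_const _
  · exact Filter.Eventually.of_forall fun z => by ext; simp
  · intro a b; simp
  · intro u w; simp
  · intro u
    have : HasFDerivAt (fun x => K (e.symm x)) _ p :=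
      (hKd (e.symm p)).hasFDerivAt.comp p e.symm.hasFDerivAt
    rw [this.fderiv]; rfl
  · intro a b
    exact ht _ _ _

/-- On the space `Fin n → ℝ`. -/
theorem all_real_pi {n : ℕ} {L : (Fin n → ℝ) → (Fin n → ℝ) →L[ℝ] (Fin n → ℝ)}
    (hL : ContDiff ℝ ∞ L) (hs : HasCompactSupport L) (ht : ∀ x v w, tors L x v w = 0)
    {x : Fin n → ℝ} {z : ℂ} (hz : (chc (L x)).IsRoot z) : z.im = 0 := by
  let e : (Fin n → ℝ) ≃L[ℝ] EuclideanSpace ℝ (Fin n) := (EuclideanSpace.equiv (Fin n) ℝ).symm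
  let L' : EuclideanSpace ℝ (Fin n) → EuclideanSpace ℝ (Fin n) →L[ℝ] EuclideanSpace ℝ (Fin n) :=
    fun y => (e : (Fin n → ℝ) →L[ℝ] EuclideanSpace ℝ (Fin n)).comp ((L (e.symm y)).comp
      (e.symm : EuclideanSpace ℝ (Fin n) →L[ℝ] (Fin n → ℝ)))
  have hL' : ContDiff ℝ ∞ L' :=
    contDiff_const.clm_comp ((hL.comp e.symm.contDiff).clm_comp contDiff_const)
  have hs' : HasCompactSupport L' := by
    have h1 : HasCompactSupport (L ∘ e.symm) := hs.comp_homeomorph e.symm.toHomeomorph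
    refine h1.mono ?_
    intro y hy hy'
    apply hy
    simp only [Function.comp] at hy'
    simp only [L']
    rw [hy']
    simp
  have ht' : ∀ y v w, tors L' y v w = 0 := fun y v w =>
    tors_transfer e (hL.differentiable (by simp)) ht y v w
  have hch : chc (L' (e x)) = chc (L x) := by
    unfold chc chp
    congr 1
    have h1 : ((L' (e x) : EuclideanSpace ℝ (Fin n) →L[ℝ] EuclideanSpace ℝ (Fin n)) :
        EuclideanSpace ℝ (Fin n) →ₗ[ℝ] EuclideanSpace ℝ (Fin n)) =
        e.toLinearEquiv.conj ((L x : (Fin n → ℝ) →L[ℝ] (Fin n → ℝ)) :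
          (Fin n → ℝ) →ₗ[ℝ] (Fin n → ℝ)) := by
      ext v
      simp [L', LinearEquiv.conj_apply]
    rw [h1, LinearEquiv.charpoly_conj]
  rw [← hch] at hz
  exact all_real hL' hs' ht' hz

end Nij
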