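import Mathlib

/-!
# Smooth factorisation of monic polynomials
-/

open scoped ContDiff Topology Polynomial
open Polynomial

noncomputable section

namespace Nij

/-- polynomial with a given coefficient vector -/
def vp {k : ℕ} (a : Fin k → ℂ) : ℂ[X] := ∑ i : Fin k, C (a i) * X ^ (i : ℕ)

/-- monic polynomial with a given vector of lower coefficients -/
def mp {k : ℕ} (a : Fin k → ℂ) : ℂ[X] := X ^ k + vp a

/-- coefficient vector -/
def cv (N : ℕ) (P : ℂ[X]) : Fin N → ℂ := fun j => P.coeff j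

theorem coeff_vp {k : ℕ} (a : Fin k → ℂ) (j : ℕ) :
    (vp a).coeff j = if h : j < k then a ⟨j, h⟩ else 0 := by
  unfold vp
  rw [finsetSum_coeff]
  simp only [coeff_C_mul, coeff_X_pow]
  split_ifs with h
  · rw [Finset.sum_eq_single (⟨j, h⟩ : Fin k)]
    · simp
    · intro b _ hb
      have : j ≠ b := fun e => hb (Fin.ext e.symm)
      simp [this]
    · intro h'; exact absurd (Finset.mem_univ _) h'
  · apply Finset.sum_eq_zero
    intro i _
    have : j ≠ i := by have := i.2; omega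
    simp [this]

theorem degree_vp_lt {k : ℕ} (a : Fin k → ℂ) : (vp a).degree < k := by
  rw [degree_lt_iff_coeff_zero]
  intro j hj
  rw [coeff_vp, dif_neg (by omega)]

theorem vp_add {k : ℕ} (a b : Fin k → ℂ) : vp (a + b) = vp a + vp b := by
  unfold vp
  rw [← Finset.sum_add_distrib]
  refine Finset.sum_congr rfl fun i _ => ?_
  simp [add_mul]

theorem vp_smul {k : ℕ} (c : ℂ) (a : Fin k → ℂ) : vp (c • a) = C c * vp a := by
  unfold vp
  rw [Finset.mul_sum]
  refine Finset.sum_congr rfl fun i _ => ?_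
  simp [mul_assoc]

theorem vp_cv {k : ℕ} {P : ℂ[X]} (hP : P.degree < k) : vp (cv k P) = P := by
  ext j
  rw [coeff_vp]
  split_ifs with h
  · rfl
  · exact (coeff_eq_zero_of_degree_lt (lt_of_lt_of_le hP (by exact_mod_cast not_lt.mp h))).symm

theorem vp_zero {k : ℕ} : vp (0 : Fin k → ℂ) = 0 := by
  unfold vp; simp

theorem vp_injective {k : ℕ} {a : Fin k → ℂ} (h : vp a = 0) : a = 0 := by
  funext i
  have := congrArg (fun P => P.coeff (i : ℕ)) h
  simpa [coeff_vp] using this

theorem mp_monic {k : ℕ} (a : Fin k → ℂ) : (mp a).Monic := monic_X_pow_add (degree_vp_lt a)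

theorem mp_natDegree {k : ℕ} (a : Fin k → ℂ) : (mp a).natDegree = k := by
  have h1 : (mp a).degree = k := by
    unfold mp
    rw [degree_add_eq_left_of_degree_lt]
    · exact degree_X_pow k
    · rw [degree_X_pow]; exact degree_vp_lt a
  exact natDegree_eq_of_degree_eq_some h1

theorem mp_degree {k : ℕ} (a : Fin k → ℂ) : (mp a).degree = k := by
  rw [degree_eq_natDegree (mp_monic a).ne_zero, mp_natDegree]

theorem mp_cv {k : ℕ} {P : ℂ[X]} (hP : P.Monic) (hk : P.natDegree = k) : mp (cv k P) = P := by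
  ext j
  unfold mp
  rw [coeff_add, coeff_X_pow, coeff_vp]
  rcases lt_trichotomy j k with h | h | h
  · rw [if_neg (by omega), dif_pos h, zero_add]; rfl
  · rw [if_pos h, dif_neg (by omega), add_zero, h, ← hk, hP.coeff_natDegree]
  · rw [if_neg (by omega), dif_neg (by omega), add_zero]
    exact (coeff_eq_zero_of_natDegree_lt (by omega)).symm

/-- The Sylvester map. -/
def syl (k m : ℕ) (A B : ℂ[X]) : ((Fin k → ℂ) × (Fin m → ℂ)) →ₗ[ℂ] (Fin (k + m) → ℂ) where
  toFun p := cv (k + m) (vp p.1 * B + A * vp p.2)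
  map_add' := by
    intro p q
    funext j
    simp only [cv, Prod.fst_add, Prod.snd_add, vp_add, Pi.add_apply, ← coeff_add]
    congr 1
    ring
  map_smul' := by
    intro c p
    funext j
    simp only [cv, Prod.smul_fst, Prod.smul_snd, vp_smul, Pi.smul_apply, smul_eq_mul,
      RingHom.id_apply, ← coeff_C_mul]
    congr 1
    ring

theorem syl_injective {k m : ℕ} {A B : ℂ[X]} (hA : A.Monic) (hB : B.Monic)
    (hk : A.natDegree = k) (hm : B.natDegree = m) (hAB : IsCoprime A B) :
    Function.Injective (syl k m A B) := by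
  rw [← LinearMap.ker_eq_bot, LinearMap.ker_eq_bot']
  rintro ⟨a, b⟩ h
  have hAd : A.degree = k := by rw [degree_eq_natDegree hA.ne_zero, hk]
  have hBd : B.degree = m := by rw [degree_eq_natDegree hB.ne_zero, hm]
  have h0 : vp a * B + A * vp b = 0 := by
    have hdeg : (vp a * B + A * vp b).degree < ((k + m : ℕ) : WithBot ℕ) := by
      refine lt_of_le_of_lt (degree_add_le _ _) ?_
      rw [degree_mul, degree_mul, hAd, hBd, Nat.cast_add]
      apply max_lt
      · exact WithBot.add_lt_add_right (by simp) (degree_vp_lt a)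
      · exact WithBot.add_lt_add_left (by simp) (degree_vp_lt b)
    have := vp_cv hdeg
    rw [← this]
    have h1 : cv (k + m) (vp a * B + A * vp b) = 0 := h
    rw [h1, vp_zero]
  have hdvd : A ∣ vp a * B := by
    refine ⟨-vp b, ?_⟩
    linear_combination h0
  have hdvd2 : A ∣ vp a := hAB.dvd_of_dvd_mul_right hdvd
  have ha : vp a = 0 := by
    apply eq_zero_of_dvd_of_degree_lt hdvd2
    rw [hAd]; exact degree_vp_lt a
  rw [ha, zero_mul, zero_add] at h0
  have hb : vp b = 0 := by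
    rcases mul_eq_zero.mp h0 with h1 | h1
    · exact absurd h1 hA.ne_zero
    · exact h1
  rw [vp_injective ha, vp_injective hb]
  rfl

/-- The Sylvester map as a continuous linear equivalence. -/
theorem exists_sylEquiv {k m : ℕ} {A B : ℂ[X]} (hA : A.Monic) (hB : B.Monic)
    (hk : A.natDegree = k) (hm : B.natDegree = m) (hAB : IsCoprime A B) :
    ∃ e : ((Fin k → ℂ) × (Fin m → ℂ)) ≃L[ℂ] (Fin (k + m) → ℂ),
      (e : ((Fin k → ℂ) × (Fin m → ℂ)) →L[ℂ] (Fin (k + m) → ℂ)) =
        LinearMap.toContinuousLinearMap (syl k m A B) := by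
  let e1 : ((Fin k → ℂ) × (Fin m → ℂ)) ≃ₗ[ℂ] (Fin (k + m) → ℂ) :=
    LinearEquiv.ofInjectiveOfFinrankEq (syl k m A B) (syl_injective hA hB hk hm hAB) (by simp)
  refine ⟨e1.toContinuousLinearEquiv, ?_⟩
  refine ContinuousLinearMap.ext fun x => ?_
  rfl

/-- linear coefficient functional -/
def linC (k p : ℕ) : (Fin k → ℂ) →L[ℂ] ℂ := LinearMap.toContinuousLinearMap
  { toFun := fun a => (vp a).coeff p
    map_add' := fun a b => by rw [vp_add, coeff_add]
    map_smul' := fun c a => by rw [vp_smul, coeff_C_mul]; rfl }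

theorem linC_apply (k p : ℕ) (a : Fin k → ℂ) : linC k p a = (vp a).coeff p := rfl

theorem coeff_mp {k : ℕ} (a : Fin k → ℂ) (p : ℕ) :
    (mp a).coeff p = (X ^ k : ℂ[X]).coeff p + linC k p a := by
  unfold mp
  rw [coeff_add, linC_apply]

/-- multiplication of monic polynomials -/
def mulm (k m : ℕ) (p : (Fin k → ℂ) × (Fin m → ℂ)) : Fin (k + m) → ℂ :=
  cv (k + m) (mp p.1 * mp p.2)

theorem mulm_hasStrictFDerivAt {k m : ℕ} (p : (Fin k → ℂ) × (Fin m → ℂ)) :
    HasStrictFDerivAt (mulm k m)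
      (LinearMap.toContinuousLinearMap (syl k m (mp p.1) (mp p.2))) p := by
  rw [hasStrictFDerivAt_pi']
  intro j
  have h1 : ∀ q : ℕ, HasStrictFDerivAt (fun p : (Fin k → ℂ) × (Fin m → ℂ) => (mp p.1).coeff q)
      ((linC k q).comp (ContinuousLinearMap.fst ℂ _ _)) p := by
    intro q
    simp only [coeff_mp]
    exact ((linC k q).comp
      (ContinuousLinearMap.fst ℂ (Fin k → ℂ) (Fin m → ℂ))).hasStrictFDerivAt.const_add _
  have h2 : ∀ q : ℕ, HasStrictFDerivAt (fun p : (Fin k → ℂ) × (Fin m → ℂ) => (mp p.2).coeff q)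
      ((linC m q).comp (ContinuousLinearMap.snd ℂ _ _)) p := by
    intro q
    simp only [coeff_mp]
    exact ((linC m q).comp
      (ContinuousLinearMap.snd ℂ (Fin k → ℂ) (Fin m → ℂ))).hasStrictFDerivAt.const_add _
  have h3 : (fun x : (Fin k → ℂ) × (Fin m → ℂ) => mulm k m x j) = fun x =>
      ∑ q ∈ Finset.HasAntidiagonal.antidiagonal (j : ℕ), (mp x.1).coeff q.1 * (mp x.2).coeff q.2 := by
    funext x
    simp only [mulm, cv, coeff_mul]
  rw [h3]
  have h4 : HasStrictFDerivAt (fun x : (Fin k → ℂ) × (Fin m → ℂ) =>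
      ∑ q ∈ Finset.HasAntidiagonal.antidiagonal (j : ℕ), (mp x.1).coeff q.1 * (mp x.2).coeff q.2) _ p :=
    HasStrictFDerivAt.fun_sum fun q _ => (h1 q.1).mul (h2 q.2)
  refine h4.congr_fderiv ?_
  refine ContinuousLinearMap.ext ?_
  rintro ⟨a, b⟩
  simp only [sum_apply, add_apply, smul_apply, smul_eq_mul,
    ContinuousLinearMap.comp_apply, ContinuousLinearMap.coe_fst', ContinuousLinearMap.coe_snd',
    linC_apply, ContinuousLinearMap.proj_apply, LinearMap.coe_toContinuousLinearMap']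
  change _ = (vp a * mp p.2 + mp p.1 * vp b).coeff j
  rw [coeff_add, coeff_mul, coeff_mul, ← Finset.sum_add_distrib]
  refine Finset.sum_congr rfl fun q _ => ?_
  ring

theorem mulm_contDiff (k m : ℕ) : ContDiff ℂ ∞ (mulm k m) := by
  rw [contDiff_pi]
  intro j
  have h3 : (fun x : (Fin k → ℂ) × (Fin m → ℂ) => mulm k m x j) = fun x =>
      ∑ q ∈ Finset.HasAntidiagonal.antidiagonal (j : ℕ), (mp x.1).coeff q.1 * (mp x.2).coeff q.2 := by
    funext x
    simp only [mulm, cv, coeff_mul]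
  rw [h3]
  refine ContDiff.sum fun q _ => ContDiff.mul ?_ ?_
  · simp only [coeff_mp]
    exact contDiff_const.add ((linC k q.1).contDiff.comp contDiff_fst)
  · simp only [coeff_mp]
    exact contDiff_const.add ((linC m q.2).contDiff.comp contDiff_snd)

/-- Smooth local factorisation. -/
theorem exists_factor {k m : ℕ} (a0 : Fin k → ℂ) (b0 : Fin m → ℂ)
    (hcop : IsCoprime (mp a0) (mp b0)) :
    ∃ ψ : (Fin (k + m) → ℂ) → (Fin k → ℂ) × (Fin m → ℂ),
      ContDiffAt ℂ ∞ ψ (mulm k m (a0, b0)) ∧ ψ (mulm k m (a0, b0)) = (a0, b0) ∧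
      ∀ᶠ c in 𝓝 (mulm k m (a0, b0)), mulm k m (ψ c) = c := by
  obtain ⟨e, he⟩ := exists_sylEquiv (mp_monic a0) (mp_monic b0) (mp_natDegree a0)
    (mp_natDegree b0) hcop
  have hs := mulm_hasStrictFDerivAt (a0, b0)
  rw [← he] at hs
  have hc : ContDiffAt ℂ ∞ (mulm k m) (a0, b0) := (mulm_contDiff k m).contDiffAt
  refine ⟨hc.localInverse hs.hasFDerivAt (by simp), hc.to_localInverse hs.hasFDerivAt (by simp),
    hc.localInverse_apply_image _ _, ?_⟩
  exact HasStrictFDerivAt.eventually_right_inverse _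

end Nij
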