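import Pool.Agent.Nij.Data

/-!
# The rotation step
-/

open scoped ContDiff Topology

noncomputable section

namespace Nij

variable {A : Type*} [NormedAddCommGroup A] [NormedSpace ℝ A]

/-- logarithmic cylindrical projection -/
def lp (z : ℂ × A) : ℝ × A := (Real.log ‖z.1‖, z.2)

def emb : ℝ × A →L[ℝ] ℂ × A := Complex.ofRealCLM.prodMap (ContinuousLinearMap.id ℝ A)

def rr : ℂ × A →L[ℝ] ℝ × A := Complex.reCLM.prodMap (ContinuousLinearMap.id ℝ A)

def imm : ℂ × A →L[ℝ] ℝ := Complex.imCLM.comp (ContinuousLinearMap.fst ℝ ℂ A)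

def MM (K : ℝ × A → ℝ × A →L[ℝ] ℝ × A) (Y : ℝ × A → ℝ × A) (x : ℝ × A) :
    ℂ × A →L[ℝ] ℂ × A :=
  emb.comp ((K x).comp rr + imm.smulRight (Y x))

/-- multiplication by `c` on the complex coordinate -/
def mc (c : ℂ) : ℂ × A →L[ℝ] ℂ × A :=
  (ContinuousLinearMap.inl ℝ ℂ A).comp
      ((ContinuousLinearMap.mul ℝ ℂ c).comp (ContinuousLinearMap.fst ℝ ℂ A))
    + (ContinuousLinearMap.inr ℝ ℂ A).comp (ContinuousLinearMap.snd ℝ ℂ A)

theorem mc_apply (c : ℂ) (w : ℂ × A) : mc c w = (c * w.1, w.2) := by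
  simp [mc]

theorem emb_apply (x : ℝ × A) : emb x = ((x.1 : ℂ), x.2) := rfl

theorem rr_apply (x : ℂ × A) : rr x = (x.1.re, x.2) := rfl

theorem imm_apply (x : ℂ × A) : imm x = x.1.im := rfl

theorem rr_emb (x : ℝ × A) : rr (emb x) = x := by
  simp [rr_apply, emb_apply]

theorem imm_emb (x : ℝ × A) : imm (emb x) = 0 := by
  simp [imm_apply, emb_apply]

theorem MM_apply (K : ℝ × A → ℝ × A →L[ℝ] ℝ × A) (Y : ℝ × A → ℝ × A) (x : ℝ × A) (w : ℂ × A) :
    MM K Y x w = emb (K x (rr w) + imm w • Y x) := by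
  simp [MM]

def stepK (K : ℝ × A → ℝ × A →L[ℝ] ℝ × A) (Y : ℝ × A → ℝ × A) (z : ℂ × A) :
    ℂ × A →L[ℝ] ℂ × A :=
  if z.1 = 0 then 0 else (mc z.1).comp ((MM K Y (lp z)).comp (mc z.1⁻¹))

def stepY (b : ℝ × A → ℝ) (z : ℂ × A) : ℂ × A :=
  if z.1 = 0 then 0 else b (lp z) • mc z.1 (Complex.I, 0)

theorem mc_contDiff : ContDiff ℝ ∞ (fun c : ℂ => (mc c : ℂ × A →L[ℝ] ℂ × A)) := by
  unfold mc
  refine ContDiff.add ?_ contDiff_const
  refine contDiff_const.clm_comp ?_
  refine ContDiff.clm_comp ?_ contDiff_const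
  exact (ContinuousLinearMap.mul ℝ ℂ).contDiff

theorem fderiv_mc (c : ℂ) (u : ℂ) (w : ℂ × A) :
    fderiv ℝ (fun c : ℂ => (mc c : ℂ × A →L[ℝ] ℂ × A)) c u w = (u * w.1, 0) := by
  have h1 : HasFDerivAt (fun c : ℂ => (mc c : ℂ × A →L[ℝ] ℂ × A) w)
      ((ContinuousLinearMap.inl ℝ ℂ A).comp ((ContinuousLinearMap.mul ℝ ℂ).flip w.1)) c := by
    have h2 : (fun c : ℂ => (mc c : ℂ × A →L[ℝ] ℂ × A) w) = fun c : ℂ =>
      ((ContinuousLinearMap.inl ℝ ℂ A).comp ((ContinuousLinearMap.mul ℝ ℂ).flip w.1)) c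
        + (0, w.2) := by
      funext c
      simp [mc_apply, mul_comm]
    rw [h2]
    exact (ContinuousLinearMap.hasFDerivAt _).add_const _
  have h3 : HasFDerivAt (fun c : ℂ => (mc c : ℂ × A →L[ℝ] ℂ × A) w) _ c :=
    ((mc_contDiff (A := A)).differentiable (by simp) c).hasFDerivAt.clm_apply
      (hasFDerivAt_const w c)
  have h4 := congrArg (fun T => T u) (h3.unique h1)
  simpa [mul_comm] using h4

theorem hasFDerivAt_log_norm {z : ℂ} (hz : z ≠ 0) :
    HasFDerivAt (fun w : ℂ => Real.log ‖w‖)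
      (Complex.reCLM.comp (ContinuousLinearMap.mul ℝ ℂ z⁻¹)) z := by
  have h1 : (fun w : ℂ => Real.log ‖w‖) = fun w : ℂ =>
      (1 / 2) * Real.log (w.re ^ 2 + w.im ^ 2) := by
    funext w
    rw [Complex.norm_eq_sqrt_sq_add_sq, Real.log_sqrt (by positivity)]
    ring
  rw [h1]
  have hre : HasFDerivAt (fun w : ℂ => w.re) Complex.reCLM z := Complex.reCLM.hasFDerivAt
  have him : HasFDerivAt (fun w : ℂ => w.im) Complex.imCLM z := Complex.imCLM.hasFDerivAt
  have hpos : z.re ^ 2 + z.im ^ 2 ≠ 0 := by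
    intro h
    apply hz
    have h1 : z.re = 0 := by nlinarith [sq_nonneg z.re, sq_nonneg z.im]
    have h2 : z.im = 0 := by nlinarith [sq_nonneg z.re, sq_nonneg z.im]
    exact Complex.ext h1 h2
  have h2 := (((hre.pow 2).add (him.pow 2)).log hpos).const_mul (1 / 2)
  refine h2.congr_fderiv ?_
  ext u
  simp [Complex.inv_re, Complex.inv_im, Complex.normSq_apply]
  field_simp
  ring

theorem hasFDerivAt_lp {z : ℂ × A} (hz : z.1 ≠ 0) :
    HasFDerivAt lp (rr.comp (mc z.1⁻¹)) z := by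
  have h1 : HasFDerivAt (fun w : ℂ × A => Real.log ‖w.1‖) _ z :=
    (hasFDerivAt_log_norm hz).comp z hasFDerivAt_fst
  have h2 : HasFDerivAt (lp : ℂ × A → ℝ × A) _ z := h1.prodMk hasFDerivAt_snd
  refine h2.congr_fderiv ?_
  ext u <;> simp [rr_apply, mc_apply]

theorem contDiffAt_lp {z : ℂ × A} (hz : z.1 ≠ 0) : ContDiffAt ℝ ∞ (lp : ℂ × A → ℝ × A) z := by
  unfold lp
  refine ContDiffAt.prodMk ?_ contDiffAt_snd
  refine ContDiffAt.log ?_ (by simpa using hz)
  exact ContDiffAt.norm ℝ contDiffAt_fst hz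

/-- the coframe -/
def co (z : ℂ × A) : ℂ × A →L[ℝ] ℂ × A := mc z.1⁻¹

/-- the frame -/
def fr (z : ℂ × A) : ℂ × A →L[ℝ] ℂ × A := mc z.1

theorem fr_contDiff : ContDiff ℝ ∞ (fr : ℂ × A → ℂ × A →L[ℝ] ℂ × A) :=
  (mc_contDiff (A := A)).comp (contDiff_fst (E := ℂ) (F := A))

theorem co_contDiffAt {z : ℂ × A} (hz : z.1 ≠ 0) : ContDiffAt ℝ ∞ (co : ℂ × A → ℂ × A →L[ℝ] ℂ × A) z := by
  have h1 : ContDiffAt ℝ ∞ (fun z : ℂ × A => z.1⁻¹) z :=
    ContDiffAt.inv contDiffAt_fst hz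
  exact ((mc_contDiff (A := A)).contDiffAt (x := z.1⁻¹)).comp z h1

theorem fderiv_fr (z u w : ℂ × A) : fderiv ℝ (fr : ℂ × A → ℂ × A →L[ℝ] ℂ × A) z u w = (u.1 * w.1, 0) := by
  have h : HasFDerivAt (fr : ℂ × A → ℂ × A →L[ℝ] ℂ × A) _ z :=
    (((mc_contDiff (A := A)).differentiable (by simp)) z.1).hasFDerivAt.comp z hasFDerivAt_fst
  rw [h.fderiv]
  simp [fderiv_mc]

theorem fderiv_co {z : ℂ × A} (hz : z.1 ≠ 0) (u w : ℂ × A) :
    fderiv ℝ (co : ℂ × A → ℂ × A →L[ℝ] ℂ × A) z u w = (-(z.1 ^ 2)⁻¹ * u.1 * w.1, 0) := by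
  have h1 : HasFDerivAt (fun c : ℂ => c⁻¹)
      ((ContinuousLinearMap.mul ℝ ℂ) (-(z.1 ^ 2)⁻¹)) z.1 := by
    have := ((hasDerivAt_inv hz).hasFDerivAt).restrictScalars ℝ
    refine this.congr_fderiv ?_
    ext u
    simp [mul_comm]
  have h2 : HasFDerivAt (fun z : ℂ × A => z.1⁻¹) _ z := h1.comp z hasFDerivAt_fst
  have h : HasFDerivAt (co : ℂ × A → ℂ × A →L[ℝ] ℂ × A) _ z :=
    (((mc_contDiff (A := A)).differentiable (by simp)) z.1⁻¹).hasFDerivAt.comp z h2
  rw [h.fderiv]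
  simp [fderiv_mc]

variable {K : ℝ × A → ℝ × A →L[ℝ] ℝ × A} {Y : ℝ × A → ℝ × A}

theorem MM_contDiff (hK : ContDiff ℝ ∞ K) (hY : ContDiff ℝ ∞ Y) : ContDiff ℝ ∞ (MM K Y) := by
  unfold MM
  refine contDiff_const.clm_comp ?_
  refine (hK.clm_comp contDiff_const).add ?_
  exact contDiff_const.smulRight hY

theorem fderiv_MM (hK : ContDiff ℝ ∞ K) (hY : ContDiff ℝ ∞ Y) (x u : ℝ × A) (w : ℂ × A) :
    fderiv ℝ (MM K Y) x u w = emb (fderiv ℝ K x u (rr w) + imm w • fderiv ℝ Y x u) := by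
  have hKd := (hK.differentiable (by simp) x).hasFDerivAt
  have hYd := (hY.differentiable (by simp) x).hasFDerivAt
  have h1 : HasFDerivAt (fun x => MM K Y x w) _ x :=
    ((MM_contDiff hK hY).differentiable (by simp) x).hasFDerivAt.clm_apply (hasFDerivAt_const w x)
  have h2 : HasFDerivAt (fun x => emb (K x (rr w) + imm w • Y x)) _ x :=
    (emb (A := A)).hasFDerivAt.comp x
      ((hKd.clm_apply (hasFDerivAt_const (rr w) x)).add (hYd.const_smul (imm w)))
  have h3 : (fun x => MM K Y x w) = fun x => emb (K x (rr w) + imm w • Y x) := by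
    funext x; exact MM_apply K Y x w
  rw [h3] at h1
  have h4 := congrArg (fun T => T u) (h1.unique h2)
  simpa using h4

theorem stepK_eventually {z : ℂ × A} (hz : z.1 ≠ 0) :
    stepK K Y =ᶠ[𝓝 z] fun z' => (fr z').comp ((MM K Y (lp z')).comp (co z')) := by
  have : {z' : ℂ × A | z'.1 ≠ 0} ∈ 𝓝 z :=
    (isOpen_ne_fun continuous_fst continuous_const).mem_nhds hz
  filter_upwards [this] with z' hz'
  simp only [stepK, if_neg hz']
  rfl

theorem stepY_eventually {b : ℝ × A → ℝ} {z : ℂ × A} (hz : z.1 ≠ 0) :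
    stepY b =ᶠ[𝓝 z] fun z' => b (lp z') • fr z' (Complex.I, 0) := by
  have : {z' : ℂ × A | z'.1 ≠ 0} ∈ 𝓝 z :=
    (isOpen_ne_fun continuous_fst continuous_const).mem_nhds hz
  filter_upwards [this] with z' hz'
  simp only [stepY, if_neg hz']
  rfl

omit [NormedSpace ℝ A] in
theorem norm_lp_ge {R : ℝ} {z : ℂ × A} (hz : ‖z.1‖ < Real.exp (-R)) (h0 : z.1 ≠ 0) :
    R < ‖lp z‖ := by
  have h1 : Real.log ‖z.1‖ < -R := by
    have h2 : 0 < ‖z.1‖ := norm_pos_iff.mpr h0
    have := Real.log_lt_log h2 hz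
    rwa [Real.log_exp] at this
  have h2 : R < |Real.log ‖z.1‖| := by
    have := neg_abs_le (Real.log ‖z.1‖)
    linarith
  exact lt_of_lt_of_le h2 (norm_fst_le (lp z))

theorem stepK_zero_near {R : ℝ} (hK : ∀ x, R ≤ ‖x‖ → K x = 0) (hY : ∀ x, R ≤ ‖x‖ → Y x = 0)
    {z : ℂ × A} (hz : z.1 = 0) : stepK K Y =ᶠ[𝓝 z] fun _ => 0 := by
  have h1 : {z' : ℂ × A | ‖z'.1‖ < Real.exp (-R)} ∈ 𝓝 z :=
    (isOpen_lt (continuous_norm.comp continuous_fst) continuous_const).mem_nhds (by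
      simp [hz, Real.exp_pos])
  filter_upwards [h1] with z' hz'
  by_cases h0 : z'.1 = 0
  · simp [stepK, h0]
  · have h2 := (norm_lp_ge hz' h0).le
    simp only [stepK, if_neg h0]
    have : MM K Y (lp z') = 0 := by
      ext w <;> simp [MM_apply, hK _ h2, hY _ h2]
    rw [this]; simp

theorem stepY_zero_near {b : ℝ × A → ℝ} {R : ℝ} (hb : ∀ x, R ≤ ‖x‖ → b x = 0)
    {z : ℂ × A} (hz : z.1 = 0) : stepY b =ᶠ[𝓝 z] fun _ => 0 := by
  have h1 : {z' : ℂ × A | ‖z'.1‖ < Real.exp (-R)} ∈ 𝓝 z :=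
    (isOpen_lt (continuous_norm.comp continuous_fst) continuous_const).mem_nhds (by
      simp [hz, Real.exp_pos])
  filter_upwards [h1] with z' hz'
  by_cases h0 : z'.1 = 0
  · simp [stepY, h0]
  · have h2 := (norm_lp_ge hz' h0).le
    simp only [stepY, if_neg h0, hb _ h2, zero_smul]

theorem co_fr {z : ℂ × A} (hz : z.1 ≠ 0) : (co z).comp (fr z) = ContinuousLinearMap.id ℝ (ℂ × A) := by
  ext w <;> simp [co, fr, mc_apply, hz]

theorem co_fr_eventually {z : ℂ × A} (hz : z.1 ≠ 0) :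
    ∀ᶠ z' in 𝓝 z, (co z').comp (fr z') = ContinuousLinearMap.id ℝ (ℂ × A) := by
  have : {z' : ℂ × A | z'.1 ≠ 0} ∈ 𝓝 z :=
    (isOpen_ne_fun continuous_fst continuous_const).mem_nhds hz
  filter_upwards [this] with z' hz'
  exact co_fr hz'

theorem MM_jet (hKY : IsNP K Y) (x : ℝ × A) (a b : ℂ × A) :
    fderiv ℝ (MM K Y) x (rr (MM K Y x a)) b - fderiv ℝ (MM K Y) x (rr (MM K Y x b)) a
      - MM K Y x (fderiv ℝ (MM K Y) x (rr a) b - fderiv ℝ (MM K Y) x (rr b) a) = 0 := by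
  have h0 := hKY.tors x (rr a) (rr b)
  have h1 := hKY.lie x (rr a)
  have h2 := hKY.lie x (rr b)
  unfold Nij.tors at h0
  unfold Nij.lie at h1 h2
  simp only [fderiv_MM hKY.smoothK hKY.smoothY, MM_apply, rr_emb]
  simp only [← map_sub, rr_emb, imm_emb]
  simp only [map_sub] at h0 h1 h2
  have h3 : ∀ P Q R : ℝ × A, ∀ β α : ℝ, P = 0 → Q = 0 → R = 0 →
      P + β • Q - α • R = 0 := by
    intro P Q R β α hP hQ hR
    rw [hP, hQ, hR]; simp
  have h4 := h3 _ _ _ (imm b) (imm a) h0 h1 h2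
  refine Eq.trans (congrArg emb (Eq.trans ?_ h4)) (map_zero _)
  simp only [map_add, map_smul, add_apply, smul_apply, map_sub, zero_smul, add_zero]
  module

theorem fderiv_kappa (hKY : IsNP K Y) {z : ℂ × A} (hz : z.1 ≠ 0) :
    HasFDerivAt (fun z' => MM K Y (lp z'))
      ((fderiv ℝ (MM K Y) (lp z)).comp (rr.comp (co z))) z :=
  (((MM_contDiff hKY.smoothK hKY.smoothY).differentiable (by simp)) (lp z)).hasFDerivAt.comp z
    (hasFDerivAt_lp hz)

theorem isNP_step [FiniteDimensional ℝ A] (hKY : IsNP K Y) {b : ℝ × A → ℝ}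
    (hb : ContDiff ℝ ∞ b) {R R2 : ℝ} (hK : ∀ x, R ≤ ‖x‖ → K x = 0)
    (hY : ∀ x, R ≤ ‖x‖ → Y x = 0) (hb1 : ∀ x, ‖x‖ ≤ R → b =ᶠ[𝓝 x] fun _ => 1)
    (hb2 : ∀ x, R2 ≤ ‖x‖ → b x = 0) :
    IsNP (stepK K Y) (stepY b) := by
  have hM0 : ∀ x, R ≤ ‖x‖ → MM K Y x = 0 := by
    intro x hx
    ext w <;> simp [MM_apply, hK _ hx, hY _ hx]
  have hcpt : ∀ r : ℝ, ∀ z : ℂ × A, z.1 ≠ 0 → ‖lp z‖ < r →
      z ∈ Metric.closedBall (0 : ℂ × A) (Real.exp r + r) := by
    intro r z hz0 hz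
    rw [mem_closedBall_zero_iff]
    have hr : 0 ≤ r := (norm_nonneg _).trans hz.le
    have h1 : |Real.log ‖z.1‖| < r := lt_of_le_of_lt (norm_fst_le (lp z)) hz
    have h2 : ‖z.2‖ < r := lt_of_le_of_lt (norm_snd_le (lp z)) hz
    have h3 : ‖z.1‖ < Real.exp r := by
      have h4 : 0 < ‖z.1‖ := norm_pos_iff.mpr hz0
      rw [← Real.log_lt_iff_lt_exp h4]
      exact lt_of_le_of_lt (le_abs_self _) h1
    rw [Prod.norm_def]
    have := Real.exp_pos r
    exact max_le (by linarith) (by linarith)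
  refine ⟨?_, ?_, ?_, ?_, ?_, ?_⟩
  · rw [contDiff_iff_contDiffAt]
    intro z
    by_cases hz : z.1 = 0
    · exact contDiffAt_const.congr_of_eventuallyEq (stepK_zero_near hK hY hz)
    · refine ContDiffAt.congr_of_eventuallyEq ?_ (stepK_eventually hz)
      refine (fr_contDiff (A := A)).contDiffAt.clm_comp ?_
      refine ContDiffAt.clm_comp ?_ (co_contDiffAt hz)
      exact ((MM_contDiff hKY.smoothK hKY.smoothY).contDiffAt).comp z (contDiffAt_lp hz)
  · rw [contDiff_iff_contDiffAt]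
    intro z
    by_cases hz : z.1 = 0
    · exact contDiffAt_const.congr_of_eventuallyEq (stepY_zero_near hb2 hz)
    · refine ContDiffAt.congr_of_eventuallyEq ?_ (stepY_eventually hz)
      have h1 : ContDiffAt ℝ ∞ (fun z' => b (lp z')) z :=
        (hb.contDiffAt).comp z (contDiffAt_lp hz)
      have h2 : ContDiffAt ℝ ∞ (fun z' : ℂ × A => fr z' (Complex.I, 0)) z :=
        (fr_contDiff (A := A)).contDiffAt.clm_apply contDiffAt_const
      exact h1.smul h2
  · refine HasCompactSupport.of_support_subset_isCompact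
      (isCompact_closedBall (0 : ℂ × A) (Real.exp R + R)) ?_
    intro z hz
    by_cases h0 : z.1 = 0
    · exact absurd (by simp [stepK, h0]) hz
    · apply hcpt R z h0
      by_contra hlt
      apply hz
      simp only [stepK, if_neg h0, hM0 _ (not_lt.mp hlt)]
      simp
  · refine HasCompactSupport.of_support_subset_isCompact
      (isCompact_closedBall (0 : ℂ × A) (Real.exp R2 + R2)) ?_
    intro z hz
    by_cases h0 : z.1 = 0
    · exact absurd (by simp [stepY, h0]) hz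
    · apply hcpt R2 z h0
      by_contra hlt
      apply hz
      simp only [stepY, if_neg h0, hb2 _ (not_lt.mp hlt)]
      simp
  · intro z v w
    by_cases hz : z.1 = 0
    · rw [tors_congr (stepK_zero_near hK hY hz)]
      exact tors_zero z v w
    · rw [tors_congr (stepK_eventually hz)]
      refine tors_lift (κ := fun z' => MM K Y (lp z')) (φ := co) (ι := fr) (z := z)
        (fderiv_kappa hKY hz).differentiableAt
        ((co_contDiffAt hz).differentiableAt (by simp))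
        (fr_contDiff.differentiable (by simp) z) (co_fr_eventually hz) ?_ ?_
        ((fderiv ℝ (MM K Y) (lp z)).comp rr) ?_ ?_ v w
      · intro a c
        simp only [fderiv_fr]
        simp only [fr, mc_apply]
        congr 1
        ring
      · intro u w
        simp only [fderiv_co hz]
        congr 1
        ring
      · intro u
        rw [(fderiv_kappa hKY hz).fderiv]
        rfl
      · intro a c
        exact MM_jet hKY (lp z) a c
  · intro z v
    by_cases hz : z.1 = 0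
    · rw [lie_congr (stepK_zero_near hK hY hz) (Filter.EventuallyEq.refl _ _)]
      exact lie_zero_left _ z v
    · by_cases hR : R < ‖lp z‖
      · have h1 : stepK K Y =ᶠ[𝓝 z] fun _ => 0 := by
          have h2 : ∀ᶠ z' in 𝓝 z, R < ‖lp z'‖ :=
            ((contDiffAt_lp hz).continuousAt.norm).eventually (lt_mem_nhds hR)
          filter_upwards [stepK_eventually hz, h2] with z' hz' h2'
          rw [hz', hM0 _ h2'.le]
          simp
        rw [lie_congr h1 (Filter.EventuallyEq.refl _ _)]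
        exact lie_zero_left _ z v
      · have h1 : stepY b =ᶠ[𝓝 z] fun z' => fr z' (Complex.I, 0) := by
          have h2 : ∀ᶠ z' in 𝓝 z, b (lp z') = 1 :=
            (contDiffAt_lp hz).continuousAt.eventually (hb1 (lp z) (not_lt.mp hR))
          filter_upwards [stepY_eventually hz, h2] with z' hz' h2'
          rw [hz', h2', one_smul]
        rw [lie_congr (stepK_eventually hz) h1]
        refine lie_lift (κ := fun z' => MM K Y (lp z')) (φ := co) (ι := fr) (z := z)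
          (fderiv_kappa hKY hz).differentiableAt
          ((co_contDiffAt hz).differentiableAt (by simp))
          (fr_contDiff.differentiable (by simp) z) (co_fr_eventually hz) ?_ ?_
          ((fderiv ℝ (MM K Y) (lp z)).comp rr) ?_ _ ?_ v
        · intro a c
          simp only [fderiv_fr]
          simp only [fr, mc_apply]
          congr 1
          ring
        · intro u w
          simp only [fderiv_co hz]
          congr 1
          ring
        · intro u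
          rw [(fderiv_kappa hKY hz).fderiv]
          rfl
        · have : rr ((Complex.I, 0) : ℂ × A) = 0 := by simp [rr_apply]
          rw [ContinuousLinearMap.comp_apply, this, map_zero]

/-- The extension of a pair `(T, y)` by one dimension. -/
def extT {V : Type*} [AddCommGroup V] [Module ℝ V] (T : V →ₗ[ℝ] V) (y : V) :
    V × ℝ →ₗ[ℝ] V × ℝ :=
  (LinearMap.inl ℝ V ℝ).comp (T.comp (LinearMap.fst ℝ V ℝ) +
    (LinearMap.snd ℝ V ℝ).smulRight y)

theorem extT_apply {V : Type*} [AddCommGroup V] [Module ℝ V] (T : V →ₗ[ℝ] V) (y : V)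
    (v : V) (t : ℝ) : extT T y (v, t) = (T v + t • y, 0) := by
  simp [extT]

/-- identification used in the step -/
def stepE {V : Type*} [AddCommGroup V] [Module ℝ V] (g : V ≃ₗ[ℝ] ℝ × A) (c : ℂ) (hc : c ≠ 0) :
    (V × ℝ) ≃ₗ[ℝ] ℂ × A where
  toFun w := mc c (emb (g w.1) + w.2 • (Complex.I, 0))
  map_add' := by
    intro x y
    rw [← map_add]
    congr 1
    simp only [Prod.fst_add, Prod.snd_add, map_add, add_smul]
    abel
  map_smul' := by
    intro a x
    rw [RingHom.id_apply, ← map_smul]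
    congr 1
    simp only [Prod.smul_fst, Prod.smul_snd, map_smul, smul_add, smul_eq_mul, mul_smul]
  invFun w := (g.symm (rr (mc c⁻¹ w)), imm (mc c⁻¹ w))
  left_inv := by
    intro x
    have h1 : ∀ w : ℂ × A, mc c⁻¹ (mc c w) = w := by
      intro w
      simp [mc_apply, hc]
    simp only [h1, map_add, map_smul, rr_emb, imm_emb]
    have h2 : rr ((Complex.I, 0) : ℂ × A) = 0 := by simp [rr_apply]
    have h3 : imm ((Complex.I, 0) : ℂ × A) = 1 := by simp [imm_apply]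
    rw [h2, h3]
    simp
  right_inv := by
    intro w
    have h1 : ∀ w : ℂ × A, mc c (mc c⁻¹ w) = w := by
      intro w
      simp [mc_apply, hc]
    have h2 : ∀ u : ℂ × A, emb (rr u) + imm u • ((Complex.I, 0) : ℂ × A) = u := by
      intro u
      ext
      · simp [emb_apply, rr_apply, imm_apply]
      · simp [emb_apply, rr_apply, imm_apply]
    simp only [LinearEquiv.apply_symm_apply, h2, h1]

theorem Data.step [FiniteDimensional ℝ A] {V : Type*} [AddCommGroup V] [Module ℝ V]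
    {T : V →ₗ[ℝ] V} {y : V} (h : Data (ℝ × A) V T y) :
    Data (ℂ × A) (V × ℝ) (extT T y) (0, 1) := by
  obtain ⟨K, Y, hKY, x₀, hx⟩ := h
  obtain ⟨R, hR0, hxR, hR⟩ : ∃ R : ℝ, 0 < R ∧ ‖x₀‖ < R ∧ ∀ x, R ≤ ‖x‖ → K x = 0 ∧ Y x = 0 := by
    obtain ⟨R1, h1⟩ := hKY.suppK.isCompact.isBounded.exists_norm_le
    obtain ⟨R2, h2⟩ := hKY.suppY.isCompact.isBounded.exists_norm_le
    refine ⟨max ‖x₀‖ (max R1 R2) + 1, by positivity, ?_, fun x hx => ⟨?_, ?_⟩⟩
    · have := le_max_left ‖x₀‖ (max R1 R2)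
      linarith
    · by_contra hne
      have := h1 x (subset_tsupport _ hne)
      have h3 : R1 ≤ max ‖x₀‖ (max R1 R2) := (le_max_left _ _).trans (le_max_right _ _)
      linarith
    · by_contra hne
      have := h2 x (subset_tsupport _ hne)
      have h3 : R2 ≤ max ‖x₀‖ (max R1 R2) := (le_max_right _ _).trans (le_max_right _ _)
      linarith
  let b : ContDiffBump (0 : ℝ × A) := ⟨R + 1, R + 2, by linarith, by linarith⟩
  have hb1 : ∀ x, ‖x‖ ≤ R → b =ᶠ[𝓝 x] fun _ => 1 := by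
    intro x hx
    have : Metric.ball (0 : ℝ × A) (R + 1) ∈ 𝓝 x :=
      Metric.isOpen_ball.mem_nhds (by rw [mem_ball_zero_iff]; linarith)
    filter_upwards [this] with z hz
    exact b.one_of_mem_closedBall (Metric.ball_subset_closedBall hz)
  have hb2 : ∀ x, R + 2 ≤ ‖x‖ → b x = 0 := by
    intro x hx
    apply b.zero_of_le_dist
    rw [dist_zero_right]
    exact hx
  refine ⟨stepK K Y, stepY b, isNP_step hKY b.contDiff (fun x hx => (hR x hx).1)
    (fun x hx => (hR x hx).2) hb1 hb2, ((Real.exp x₀.1 : ℂ), x₀.2), ?_⟩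
  have hne : ((Real.exp x₀.1 : ℂ), x₀.2).1 ≠ 0 := by
    simp
  have hlp : lp ((Real.exp x₀.1 : ℂ), x₀.2) = x₀ := by
    unfold lp
    ext
    · simp only []
      rw [Complex.norm_real, Real.norm_eq_abs, abs_of_pos (Real.exp_pos _), Real.log_exp]
    · rfl
  have hcont := (contDiffAt_lp (A := A) hne).continuousAt
  have h1 : ∀ᶠ z in 𝓝 ((Real.exp x₀.1 : ℂ), x₀.2), ∃ g : V ≃ₗ[ℝ] ℝ × A,
      (∀ v, K (lp z) (g v) = g (T v)) ∧ Y (lp z) = g y := by
    refine hcont.eventually (p := fun x => ∃ g : V ≃ₗ[ℝ] ℝ × A,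
      (∀ v, K x (g v) = g (T v)) ∧ Y x = g y) ?_
    rw [hlp]
    exact hx
  have h2 : ∀ᶠ z in 𝓝 ((Real.exp x₀.1 : ℂ), x₀.2), b (lp z) = 1 := by
    refine hcont.eventually (p := fun x => b x = 1) ?_
    rw [hlp]
    exact hb1 x₀ hxR.le
  have h3 : ∀ᶠ z in 𝓝 ((Real.exp x₀.1 : ℂ), x₀.2), z.1 ≠ 0 :=
    (isOpen_ne_fun continuous_fst continuous_const).mem_nhds hne
  filter_upwards [h1, h2, h3] with z hz1 hz2 hz3
  obtain ⟨g, hg, hgy⟩ := hz1
  have hinv : ∀ w : ℂ × A, mc z.1⁻¹ (mc z.1 w) = w := by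
    intro w
    simp [mc_apply, hz3]
  have h4 : rr ((Complex.I, 0) : ℂ × A) = 0 := by simp [rr_apply]
  have h5 : imm ((Complex.I, 0) : ℂ × A) = 1 := by simp [imm_apply]
  refine ⟨stepE g z.1 hz3, ?_, ?_⟩
  · rintro ⟨v, t⟩
    simp only [stepK, if_neg hz3]
    change mc z.1 (MM K Y (lp z) (mc z.1⁻¹ (mc z.1 (emb (g v) + t • (Complex.I, 0))))) =
      mc z.1 (emb (g (extT T y (v, t)).1) + (extT T y (v, t)).2 • (Complex.I, 0))
    rw [hinv, extT_apply, MM_apply]
    simp only [map_add, map_smul, rr_emb, imm_emb, h4, h5, hg, hgy]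
    simp
  · simp only [stepY, if_neg hz3, hz2, one_smul]
    change mc z.1 (Complex.I, 0) = mc z.1 (emb (g 0) + (1 : ℝ) • (Complex.I, 0))
    simp

end Nij
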